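import Mathlib
set_option autoImplicit false
namespace Pool.Agent.Helper507.SK

/-- TARGET 1: finite Ramsey for two colours, finset version. -/
theorem ramsey (a b : ℕ) : ∃ N : ℕ, ∀ (V : Type) (Γ : V → V → Prop), (∀ x y, Γ x y → Γ y x) →
    ∀ A : Finset V, N ≤ A.card →
    (∃ Q ⊆ A, Q.card = a ∧ ∀ x ∈ Q, ∀ y ∈ Q, x ≠ y → Γ x y) ∨
    (∃ Q ⊆ A, Q.card = b ∧ ∀ x ∈ Q, ∀ y ∈ Q, x ≠ y → ¬ Γ x y) := by
  classical
  induction a generalizing b with
  | zero =>
    exact ⟨0, fun V Γ _ A _ => Or.inl ⟨∅, Finset.empty_subset _, by simp, by simp⟩⟩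
  | succ a iha =>
    induction b with
    | zero =>
      exact ⟨0, fun V Γ _ A _ => Or.inr ⟨∅, Finset.empty_subset _, by simp, by simp⟩⟩
    | succ b ihb =>
      obtain ⟨N1, h1⟩ := iha (b + 1)
      obtain ⟨N2, h2⟩ := ihb
      refine ⟨N1 + N2 + 1, ?_⟩
      intro V Γ hs A hA
      have hne : A.Nonempty := by
        rw [← Finset.card_pos]; omega
      obtain ⟨x, hx⟩ := hne
      have hcard := Finset.card_filter_add_card_filter_not (s := A.erase x) (fun y => Γ x y)
      rw [Finset.card_erase_of_mem hx] at hcard
      have hcase : N1 ≤ ((A.erase x).filter (fun y => Γ x y)).card ∨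
          N2 ≤ ((A.erase x).filter (fun y => ¬ Γ x y)).card := by omega
      rcases hcase with hc | hc
      · rcases h1 V Γ hs _ hc with ⟨Q, hQ, hQc, hQp⟩ | ⟨Q, hQ, hQc, hQp⟩
        · left
          have hxQ : x ∉ Q := by
            intro h
            have := hQ h
            simp at this
          refine ⟨insert x Q, ?_, ?_, ?_⟩
          · intro y hy
            rcases Finset.mem_insert.mp hy with rfl | hy
            · exact hx
            · exact Finset.mem_of_mem_erase (Finset.mem_filter.mp (hQ hy)).1
          · rw [Finset.card_insert_of_notMem hxQ, hQc]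
          · intro u hu v hv huv
            rcases Finset.mem_insert.mp hu with rfl | hu'
            · rcases Finset.mem_insert.mp hv with rfl | hv
              · exact absurd rfl huv
              · exact (Finset.mem_filter.mp (hQ hv)).2
            · rcases Finset.mem_insert.mp hv with rfl | hv
              · exact hs _ _ (Finset.mem_filter.mp (hQ hu')).2
              · exact hQp u hu' v hv huv
        · right
          exact ⟨Q, fun y hy => Finset.mem_of_mem_erase (Finset.mem_filter.mp (hQ hy)).1, hQc, hQp⟩
      · rcases h2 V Γ hs _ hc with ⟨Q, hQ, hQc, hQp⟩ | ⟨Q, hQ, hQc, hQp⟩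
        · left
          exact ⟨Q, fun y hy => Finset.mem_of_mem_erase (Finset.mem_filter.mp (hQ hy)).1, hQc, hQp⟩
        · right
          have hxQ : x ∉ Q := by
            intro h
            have := hQ h
            simp at this
          refine ⟨insert x Q, ?_, ?_, ?_⟩
          · intro y hy
            rcases Finset.mem_insert.mp hy with rfl | hy
            · exact hx
            · exact Finset.mem_of_mem_erase (Finset.mem_filter.mp (hQ hy)).1
          · rw [Finset.card_insert_of_notMem hxQ, hQc]
          · intro u hu v hv huv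
            rcases Finset.mem_insert.mp hu with rfl | hu'
            · rcases Finset.mem_insert.mp hv with rfl | hv
              · exact absurd rfl huv
              · exact (Finset.mem_filter.mp (hQ hv)).2
            · rcases Finset.mem_insert.mp hv with rfl | hv
              · exact fun h => (Finset.mem_filter.mp (hQ hu')).2 (hs _ _ h)
              · exact hQp u hu' v hv huv

/-- TARGET 2: pigeonhole. -/
theorem pig (K : ℕ) (V : Type) (g : V → ℕ) (Q : Finset V) (h : K * K + 1 ≤ Q.card) :
    ∃ I ⊆ Q, I.card = K ∧ ((∀ x ∈ I, ∀ y ∈ I, g x = g y) ∨ (∀ x ∈ I, ∀ y ∈ I, g x = g y → x = y)) := by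
  classical
  by_cases hf : ∃ c, K ≤ (Q.filter (fun x => g x = c)).card
  · obtain ⟨c, hc⟩ := hf
    obtain ⟨I, hI, hIc⟩ := Finset.exists_subset_card_eq hc
    refine ⟨I, fun x hx => (Finset.mem_filter.mp (hI hx)).1, hIc, Or.inl ?_⟩
    intro x hx y hy
    rw [(Finset.mem_filter.mp (hI hx)).2, (Finset.mem_filter.mp (hI hy)).2]
  · push Not at hf
    have h1 : Q.card ≤ K * (Q.image g).card :=
      Finset.card_le_mul_card_image Q K (fun a _ => (hf a).le)
    have h2 : K ≤ (Q.image g).card := by
      by_contra hc
      have : K * (Q.image g).card ≤ K * K := Nat.mul_le_mul_left K (by omega)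
      omega
    obtain ⟨T, hT, hTc⟩ := Finset.exists_subset_card_eq h2
    have h3 : ∀ t, ∃ x, t ∈ T → (x ∈ Q ∧ g x = t) := by
      intro t
      by_cases ht : t ∈ T
      · obtain ⟨x, hx, hxt⟩ := Finset.mem_image.mp (hT ht)
        exact ⟨x, fun _ => ⟨hx, hxt⟩⟩
      · have hne : Q.Nonempty := by
          rw [← Finset.card_pos]; omega
        obtain ⟨x, _⟩ := hne
        exact ⟨x, fun h => absurd h ht⟩
    choose p hp using h3
    refine ⟨T.image p, ?_, ?_, Or.inr ?_⟩
    · intro x hx
      obtain ⟨t, ht, rfl⟩ := Finset.mem_image.mp hx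
      exact (hp t ht).1
    · rw [Finset.card_image_of_injOn, hTc]
      intro s hs t ht hst
      rw [← (hp s hs).2, ← (hp t ht).2]
      exact congrArg g hst
    · intro x hx y hy hxy
      obtain ⟨s, hs, rfl⟩ := Finset.mem_image.mp hx
      obtain ⟨t, ht, rfl⟩ := Finset.mem_image.mp hy
      rw [(hp s hs).2, (hp t ht).2] at hxy
      rw [hxy]

end Pool.Agent.Helper507.SK
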