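import Pool.Agent.Helper507.SC.Base
import Pool.Agent.Helper507.SK.Ram
set_option autoImplicit false
namespace Pool.Agent.Helper507.SK
open SC

/-- the set `X` contains no clique with `κ` vertices -/
def Small {V : Type} (κ : ℕ) (G : SimpleGraph V) (X : Set V) : Prop :=
  ∀ s : Finset V, (∀ x ∈ s, x ∈ X) → ¬ G.IsNClique κ s

/-- every nonempty small set of `H` contains the root of an `L`-copy avoiding the set otherwise -/
def RobK {W : Type} (κ : ℕ) (H : SimpleGraph W) (L : List ℕ) : Prop :=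
  ∀ X : Set W, X.Nonempty → Small κ H X → ∃ v ∈ X, HasC H L v Xᶜ

theorem Small.mono {V : Type} {κ : ℕ} {G : SimpleGraph V} {X Y : Set V} (h : X ⊆ Y)
    (hY : Small κ G Y) : Small κ G X := fun s hs => hY s (fun x hx => h (hs x hx))

theorem isNClique_mk {V : Type} {G : SimpleGraph V} {n : ℕ} {s : Finset V} (h1 : s.card = n)
    (h2 : ∀ x ∈ s, ∀ y ∈ s, x ≠ y → G.Adj x y) : G.IsNClique n s :=
  ⟨fun x hx y hy hxy => h2 x hx y hy hxy, h1⟩

theorem small_nbr {V : Type} {κ : ℕ} {G : SimpleGraph V} (hG : G.CliqueFree (κ + 1)) (v : V) :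
    Small κ G {w | G.Adj v w} := by
  classical
  intro s hs hc
  refine hG (insert v s) ?_
  have hv : v ∉ s := fun h => G.loopless.irrefl v (hs v h)
  refine isNClique_mk ?_ ?_
  · rw [Finset.card_insert_of_notMem hv, hc.2]
  · intro x hx y hy hxy
    rcases Finset.mem_insert.1 hx with h1 | h1
    · rcases Finset.mem_insert.1 hy with h2 | h2
      · exact absurd (h1.trans h2.symm) hxy
      · rw [h1]; exact hs y h2
    · rcases Finset.mem_insert.1 hy with h2 | h2
      · rw [h2]; exact (hs x h1).symm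
      · exact hc.1 h1 h2 hxy

theorem Small.comap {V W : Type} {κ : ℕ} {G : SimpleGraph V} {H : SimpleGraph W} (e : H ↪g G)
    {X : Set V} (hX : Small κ G X) : Small κ H (e ⁻¹' X) := by
  classical
  intro s hs hc
  refine hX (s.map e.toEmbedding) ?_ ?_
  · intro x hx
    obtain ⟨x0, hx0, rfl⟩ := Finset.mem_map.1 hx
    exact hs x0 hx0
  · refine isNClique_mk ?_ ?_
    · rw [Finset.card_map, hc.2]
    · intro x hx y hy hxy
      obtain ⟨x0, hx0, rfl⟩ := Finset.mem_map.1 hx
      obtain ⟨y0, hy0, rfl⟩ := Finset.mem_map.1 hy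
      exact e.map_adj_iff.2 (hc.1 hx0 hy0 (fun h => hxy (by rw [h])))

/-- extension through a robust copy -/
theorem hasC_extK {V W : Type} {G : SimpleGraph V} {H : SimpleGraph W} {L : List ℕ} {κ : ℕ}
    (hG : G.CliqueFree (κ + 1)) (hR : RobK κ H L) (φ : H ↪g G) {v : V} (hv : ∀ h, φ h ≠ v)
    (ht : ∃ h, G.Adj v (φ h)) : HasC G (0 :: L) v (Set.range φ) := by
  obtain ⟨h0, hh0⟩ := ht
  obtain ⟨x, hx, hc⟩ := hR (φ ⁻¹' {w | G.Adj v w}) ⟨h0, hh0⟩ ((small_nbr hG v).comap φ)
  have h1 := hasC_cons0 (v := v) (u := φ x) hx (S := φ '' (φ ⁻¹' {w | G.Adj v w})ᶜ) (by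
    rintro w ⟨w0, hw0, rfl⟩
    exact ⟨hv w0, hw0⟩) (HasC.map φ hc)
  refine HasC.mono ?_ h1
  intro w hw
  rcases hw with rfl | ⟨w0, -, rfl⟩
  · exact ⟨x, rfl⟩
  · exact ⟨w0, rfl⟩

/-- a clique for the relation adjacent-or-different-label contains a large clique -/
theorem clq {V : Type} (Adj : V → V → Prop) (hsym : ∀ x y, Adj x y → Adj y x) (ρ : V → ℕ) (M : ℕ) :
    ∀ (n : ℕ) (Q : Finset V), Q.card = n → (∀ x ∈ Q, ∀ y ∈ Q, x ≠ y → Adj x y ∨ ρ x ≠ ρ y) →
      (∀ x ∈ Q, ∀ s : Finset V, (∀ y ∈ s, y ∈ Q ∧ ρ y < ρ x ∧ ¬ Adj y x) → s.card ≤ M) →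
      ∃ Q' ⊆ Q, Q.card ≤ Q'.card * (M + 1) ∧ ∀ x ∈ Q', ∀ y ∈ Q', x ≠ y → Adj x y := by
  classical
  intro n
  induction n using Nat.strong_induction_on with
  | _ n ih =>
    intro Q hn hQ hM
    rcases Q.eq_empty_or_nonempty with rfl | hne
    · exact ⟨∅, Finset.Subset.refl _, by simp, by simp⟩
    obtain ⟨x, hx, hmax⟩ := Finset.exists_max_image Q ρ hne
    obtain ⟨Q1, hQ1⟩ : ∃ Q1, Q1 = (Q.erase x).filter fun y => Adj y x := ⟨_, rfl⟩
    have hsub : Q1 ⊆ Q := by
      rw [hQ1]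
      exact (Finset.filter_subset _ _).trans (Finset.erase_subset _ _)
    have hxQ1 : x ∉ Q1 := by
      rw [hQ1, Finset.mem_filter, Finset.mem_erase]
      tauto
    have hlt : Q1.card < n := by
      rw [← hn]
      exact Finset.card_lt_card ⟨hsub, fun h => hxQ1 (h hx)⟩
    obtain ⟨Q', h1, h2, h3⟩ := ih _ hlt Q1 rfl (fun a ha b hb => hQ a (hsub ha) b (hsub hb))
      (fun a ha s hs => hM a (hsub ha) s (fun y hy => ⟨hsub (hs y hy).1, (hs y hy).2⟩))
    have h4 : ((Q.erase x).filter fun y => ¬ Adj y x).card ≤ M := by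
      refine hM x hx _ ?_
      intro y hy
      rw [Finset.mem_filter, Finset.mem_erase] at hy
      obtain ⟨⟨hyx, hyQ⟩, hny⟩ := hy
      refine ⟨hyQ, lt_of_le_of_ne (hmax y hyQ) ?_, hny⟩
      rcases hQ y hyQ x hx hyx with h | h
      · exact absurd h hny
      · exact h
    have h5 := Finset.card_filter_add_card_filter_not (s := Q.erase x) (fun y => Adj y x)
    rw [← hQ1] at h5
    have h6 : (Q.erase x).card = Q.card - 1 := Finset.card_erase_of_mem hx
    have h7 : 0 < Q.card := Finset.card_pos.2 hne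
    refine ⟨insert x Q', ?_, ?_, ?_⟩
    · intro y hy
      rcases Finset.mem_insert.1 hy with rfl | hy
      · exact hx
      · exact hsub (h1 hy)
    · rw [Finset.card_insert_of_notMem (fun h => hxQ1 (h1 h))]
      have : (Q'.card + 1) * (M + 1) = Q'.card * (M + 1) + (M + 1) := by ring
      omega
    · intro a ha b hb hab
      rcases Finset.mem_insert.1 ha with e1 | e1
      · rcases Finset.mem_insert.1 hb with e2 | e2
        · exact absurd (e1.trans e2.symm) hab
        · rw [e1]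
          have := h1 e2
          rw [hQ1, Finset.mem_filter] at this
          exact hsym _ _ this.2
      · rcases Finset.mem_insert.1 hb with e2 | e2
        · rw [e2]
          have := h1 e1
          rw [hQ1, Finset.mem_filter] at this
          exact this.2
        · exact h3 a e1 b e2 hab

end Pool.Agent.Helper507.SK
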