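import Mathlib
set_option autoImplicit false
namespace Pool.Agent.Helper507.SK

open Classical in
/-- the `π`-largest subset of `A` satisfying `P` (or `∅`) -/
noncomputable def pick {V : Type} (π : Finset V → ℕ) (P : Finset V → Prop) (A : Finset V) : Finset V :=
  if h : (A.powerset.filter P).Nonempty then
    Classical.choose (Finset.exists_max_image (A.powerset.filter P) π h) else ∅

theorem pick_spec {V : Type} {π : Finset V → ℕ} {P : Finset V → Prop} {A : Finset V}
    (h : ∃ I ⊆ A, P I) : pick π P A ⊆ A ∧ P (pick π P A) ∧ ∀ I ⊆ A, P I → π I ≤ π (pick π P A) := by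
  classical
  have h' : (A.powerset.filter P).Nonempty := by
    obtain ⟨I, h1, h2⟩ := h
    exact ⟨I, Finset.mem_filter.2 ⟨Finset.mem_powerset.2 h1, h2⟩⟩
  have hs := Classical.choose_spec (Finset.exists_max_image (A.powerset.filter P) π h')
  have he : pick π P A = Classical.choose (Finset.exists_max_image (A.powerset.filter P) π h') := by
    unfold pick
    rw [dif_pos h']
  rw [← he] at hs
  obtain ⟨h1, h2⟩ := hs
  rw [Finset.mem_filter, Finset.mem_powerset] at h1
  exact ⟨h1.1, h1.2, fun I hI hP => h2 I (Finset.mem_filter.2 ⟨Finset.mem_powerset.2 hI, hP⟩)⟩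

theorem pick_none {V : Type} {π : Finset V → ℕ} {P : Finset V → Prop} {A : Finset V}
    (h : ¬ ∃ I ⊆ A, P I) : pick π P A = ∅ := by
  classical
  unfold pick
  rw [dif_neg]
  rintro ⟨I, hI⟩
  rw [Finset.mem_filter, Finset.mem_powerset] at hI
  exact h ⟨I, hI.1, hI.2⟩

theorem pick_sub {V : Type} (π : Finset V → ℕ) (P : Finset V → Prop) (A : Finset V) :
    pick π P A ⊆ A := by
  by_cases h : ∃ I ⊆ A, P I
  · exact (pick_spec h).1
  · rw [pick_none h]
    exact Finset.empty_subset _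

theorem pick_local {V : Type} {π : Finset V → ℕ} (hπ : Function.Injective π) {P : Finset V → Prop}
    {X A : Finset V} (h1 : pick π P X ⊆ A) (h2 : A ⊆ X) : pick π P A = pick π P X := by
  by_cases h : ∃ I ⊆ X, P I
  · obtain ⟨a1, a2, a3⟩ := pick_spec (π := π) h
    have h' : ∃ I ⊆ A, P I := ⟨_, h1, a2⟩
    obtain ⟨b1, b2, b3⟩ := pick_spec (π := π) h'
    apply hπ
    exact le_antisymm (a3 _ (b1.trans h2) b2) (b3 _ h1 a2)
  · rw [pick_none h, pick_none]
    rintro ⟨I, hI, hP⟩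
    exact h ⟨I, hI.trans h2, hP⟩

open Classical in
/-- the successive remainders -/
noncomputable def rem {V : Type} (π : Finset V → ℕ) (P : Finset V → Prop) (Γ : V → V → Prop) (T : ℕ)
    (A : Finset V) : ℕ → Finset V
  | 0 => A
  | s + 1 => (rem π P Γ T A s).filter fun x =>
      ((pick π P (rem π P Γ T A s)).filter fun q => ¬ Γ q x).card ≤ T

noncomputable def pk {V : Type} (π : Finset V → ℕ) (P : Finset V → Prop) (Γ : V → V → Prop) (T : ℕ)
    (A : Finset V) (s : ℕ) : Finset V := pick π P (rem π P Γ T A s)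

theorem rem_succ_sub {V : Type} (π : Finset V → ℕ) (P : Finset V → Prop) (Γ : V → V → Prop) (T : ℕ)
    (A : Finset V) (s : ℕ) : rem π P Γ T A (s + 1) ⊆ rem π P Γ T A s := by
  classical
  rw [rem]
  exact Finset.filter_subset _ _

theorem rem_sub {V : Type} (π : Finset V → ℕ) (P : Finset V → Prop) (Γ : V → V → Prop) (T : ℕ)
    (A : Finset V) : ∀ s, rem π P Γ T A s ⊆ A
  | 0 => by rw [rem]
  | s + 1 => (rem_succ_sub π P Γ T A s).trans (rem_sub π P Γ T A s)

theorem rem_anti {V : Type} (π : Finset V → ℕ) (P : Finset V → Prop) (Γ : V → V → Prop) (T : ℕ)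
    (A : Finset V) {s t : ℕ} (h : s ≤ t) : rem π P Γ T A t ⊆ rem π P Γ T A s := by
  induction h with
  | refl => exact Finset.Subset.refl _
  | step _ ih => exact (rem_succ_sub π P Γ T A _).trans ih

theorem pk_sub {V : Type} (π : Finset V → ℕ) (P : Finset V → Prop) (Γ : V → V → Prop) (T : ℕ)
    (A : Finset V) (s : ℕ) : pk π P Γ T A s ⊆ A :=
  (pick_sub _ _ _).trans (rem_sub π P Γ T A s)

theorem mem_rem_succ {V : Type} (π : Finset V → ℕ) (P : Finset V → Prop) (Γ : V → V → Prop) (T : ℕ)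
    (A : Finset V) (s : ℕ) (x : V) : x ∈ rem π P Γ T A (s + 1) ↔ x ∈ rem π P Γ T A s ∧
      ∀ F : Finset V, F ⊆ pk π P Γ T A s → (∀ q ∈ F, ¬ Γ q x) → F.card ≤ T := by
  classical
  rw [rem, Finset.mem_filter]
  constructor
  · rintro ⟨h1, h2⟩
    refine ⟨h1, fun F hF hΓ => (Finset.card_le_card ?_).trans h2⟩
    intro q hq
    exact Finset.mem_filter.2 ⟨hF hq, hΓ q hq⟩
  · rintro ⟨h1, h2⟩
    refine ⟨h1, h2 _ (Finset.filter_subset _ _) ?_⟩
    intro q hq
    exact (Finset.mem_filter.1 hq).2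

theorem rem_local {V : Type} {π : Finset V → ℕ} (hπ : Function.Injective π) {P : Finset V → Prop}
    {Γ : V → V → Prop} {T : ℕ} {X A : Finset V} (n : ℕ)
    (h1 : ∀ s, s < n → pk π P Γ T X s ⊆ A) (h2 : A ⊆ X) :
    ∀ s, s ≤ n → (∀ x, x ∈ rem π P Γ T A s ↔ x ∈ rem π P Γ T X s ∧ x ∈ A) ∧
      (s < n → pk π P Γ T A s = pk π P Γ T X s) := by
  classical
  have key : ∀ s, s < n → (∀ x, x ∈ rem π P Γ T A s ↔ x ∈ rem π P Γ T X s ∧ x ∈ A) →
      pk π P Γ T A s = pk π P Γ T X s := by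
    intro s hs h
    refine pick_local hπ ?_ ?_
    · intro x hx
      exact (h x).2 ⟨pick_sub _ _ _ hx, h1 s hs hx⟩
    · intro x hx
      exact ((h x).1 hx).1
  intro s
  induction s with
  | zero =>
    intro _
    have h0 : ∀ x, x ∈ rem π P Γ T A 0 ↔ x ∈ rem π P Γ T X 0 ∧ x ∈ A := by
      intro x
      rw [rem, rem]
      exact ⟨fun h => ⟨h2 h, h⟩, fun h => h.2⟩
    exact ⟨h0, fun hn => key 0 hn h0⟩
  | succ s ih =>
    intro hs
    obtain ⟨a1, a2⟩ := ih (by omega)
    have hpk := a2 (by omega)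
    have h0 : ∀ x, x ∈ rem π P Γ T A (s + 1) ↔ x ∈ rem π P Γ T X (s + 1) ∧ x ∈ A := by
      intro x
      rw [mem_rem_succ, mem_rem_succ, a1, hpk]
      tauto
    exact ⟨h0, fun hn => key _ hn h0⟩

/-- after `ω` steps nothing is left to pick -/
theorem rem_term {V : Type} {π : Finset V → ℕ} {P : Finset V → Prop} {Γ : V → V → Prop}
    (hsym : ∀ x y, Γ x y → Γ y x) (hirr : ∀ x, ¬ Γ x x)
    {K T ω : ℕ} (hPK : ∀ I, P I → I.card = K) (hK : ω * T < K) {A : Finset V}
    (hω : ∀ Q ⊆ A, (∀ x ∈ Q, ∀ y ∈ Q, x ≠ y → Γ x y) → Q.card ≤ ω) :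
    ¬ ∃ I ⊆ rem π P Γ T A ω, P I := by
  classical
  intro hI
  have hI' : ∀ s, s ≤ ω → ∃ I ⊆ rem π P Γ T A s, P I := by
    intro s hs
    obtain ⟨I, h1, h2⟩ := hI
    exact ⟨I, h1.trans (rem_anti _ _ _ _ _ hs), h2⟩
  have key : ∀ j, j ≤ ω + 1 → ∃ Q ⊆ rem π P Γ T A (ω + 1 - j), Q.card = j ∧
      ∀ x ∈ Q, ∀ y ∈ Q, x ≠ y → Γ x y := by
    intro j
    induction j with
    | zero =>
      intro _
      exact ⟨∅, Finset.empty_subset _, rfl, by simp⟩
    | succ j ih =>
      intro hj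
      obtain ⟨Q, hQ1, hQ2, hQ3⟩ := ih (by omega)
      obtain ⟨s, hs⟩ : ∃ s, s = ω - j := ⟨_, rfl⟩
      have e1 : ω + 1 - j = s + 1 := by omega
      have e2 : ω + 1 - (j + 1) = s := by omega
      rw [e1] at hQ1
      rw [e2]
      obtain ⟨a1, a2, -⟩ := pick_spec (π := π) (hI' s (by omega))
      have hcard : (pk π P Γ T A s).card = K := hPK _ a2
      have hbad : ((pk π P Γ T A s).filter fun q => ∃ x ∈ Q, ¬ Γ q x).card ≤ ω * T := by
        have hsub : ((pk π P Γ T A s).filter fun q => ∃ x ∈ Q, ¬ Γ q x) ⊆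
            Q.biUnion fun x => (pk π P Γ T A s).filter fun q => ¬ Γ q x := by
          intro q hq
          rw [Finset.mem_filter] at hq
          obtain ⟨hq1, x, hx, hq2⟩ := hq
          exact Finset.mem_biUnion.2 ⟨x, hx, Finset.mem_filter.2 ⟨hq1, hq2⟩⟩
        refine (Finset.card_le_card hsub).trans ?_
        refine (Finset.card_biUnion_le_card_mul _ _ T fun x hx => ?_).trans
          (Nat.mul_le_mul_right _ (by omega))
        exact ((mem_rem_succ π P Γ T A s x).1 (hQ1 hx)).2 _ (Finset.filter_subset _ _)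
          (fun q hq => (Finset.mem_filter.1 hq).2)
      have hex : ∃ q ∈ pk π P Γ T A s, ∀ x ∈ Q, Γ q x := by
        by_contra hcon
        push Not at hcon
        have : (pk π P Γ T A s).filter (fun q => ∃ x ∈ Q, ¬ Γ q x) = pk π P Γ T A s := by
          rw [Finset.filter_eq_self]
          exact hcon
        rw [this, hcard] at hbad
        omega
      obtain ⟨q, hq, hqQ⟩ := hex
      have hqn : q ∉ Q := fun h => hirr q (hqQ q h)
      refine ⟨insert q Q, ?_, ?_, ?_⟩
      · intro x hx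
        rcases Finset.mem_insert.1 hx with rfl | hx
        · exact a1 hq
        · exact rem_succ_sub _ _ _ _ _ _ (hQ1 hx)
      · rw [Finset.card_insert_of_notMem hqn, hQ2]
      · intro x hx y hy hxy
        rcases Finset.mem_insert.1 hx with h1 | h1
        · rcases Finset.mem_insert.1 hy with h2 | h2
          · exact absurd (h1.trans h2.symm) hxy
          · rw [h1]; exact hqQ y h2
        · rcases Finset.mem_insert.1 hy with h2 | h2
          · rw [h2]; exact hsym _ _ (hqQ x h1)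
          · exact hQ3 x h1 y h2 hxy
  obtain ⟨Q, hQ1, hQ2, hQ3⟩ := key (ω + 1) le_rfl
  have := hω Q (hQ1.trans (rem_sub _ _ _ _ _ _)) hQ3
  omega

end Pool.Agent.Helper507.SK
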