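import Pool.Agent.Helper507.SK.J1
set_option autoImplicit false
namespace Pool.Agent.Helper507.SK

theorem Jk (ω M : ℕ) : ∃ N : ℕ, ∀ (V : Type) [Finite V] (g : V → ℕ) (Γ R : V → V → Prop),
    (∀ x, ¬ Γ x x) → (∀ x y, Γ x y → Γ y x) → (∀ v x, R v x → g v < g x) →
    (∀ v, ∀ Q : Finset V, (∀ x ∈ Q, R v x) → (∀ x ∈ Q, ∀ y ∈ Q, x ≠ y → Γ x y) → Q.card ≤ ω) →
    (∀ v x x', R v x → R x x' → ∀ s : Finset V,
      (∀ y ∈ s, R v y ∧ ¬ Γ y x ∧ ¬ R y x' ∧ g y ≠ g x') → s.card ≤ M) →
    ∃ c : V → Fin N, ∀ v x, R v x → c v ≠ c x := by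
  classical
  obtain ⟨N1, hN1⟩ := J1 ω M
  obtain ⟨N2, hN2⟩ := J1 (ω + 1) M
  refine ⟨Fintype.card (Fin N1 × Fin N2), ?_⟩
  intro V _ g Γ R hirr hsym hRg hR2 hR4
  have := Fintype.ofFinite V
  obtain ⟨c1, hc1⟩ := hN1 V g Γ R hirr hsym hRg hR2 hR4
  have hc1' : ∀ v x y, R v x → R v y → c1 v = c1 x → c1 v = c1 y → g x = g y := by
    intro v x y hx hy ex ey
    rcases lt_trichotomy (g x) (g y) with h | h | h
    · exact absurd ey (hc1 v y x hy hx h)
    · exact h
    · exact absurd ex (hc1 v x y hx hy h)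
  obtain ⟨B, hB⟩ : ∃ B : ℕ, ∀ v, g v < B :=
    ⟨Finset.univ.sup g + 1, fun v => Nat.lt_succ_of_le (Finset.le_sup (Finset.mem_univ v))⟩
  let g' : V ⊕ Fin B → ℕ := Sum.elim (fun v => 2 * g v) (fun l => 2 * (l : ℕ) + 1)
  let R' : V ⊕ Fin B → V ⊕ Fin B → Prop := fun a b => match a, b with
    | Sum.inl v, Sum.inl x => R v x ∧ c1 v = c1 x
    | Sum.inl v, Sum.inr l => g v = (l : ℕ)
    | Sum.inr _, _ => False
  let Γ' : V ⊕ Fin B → V ⊕ Fin B → Prop := fun a b => match a, b with
    | Sum.inl v, Sum.inl x => Γ v x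
    | Sum.inl _, Sum.inr _ => True
    | Sum.inr _, Sum.inl _ => True
    | Sum.inr l, Sum.inr l' => l ≠ l'
  obtain ⟨c2, hc2⟩ := hN2 (V ⊕ Fin B) g' Γ' R' (by
    rintro (x | l)
    · exact hirr x
    · exact fun h => h rfl) (by
    rintro (x | l) (y | l') h
    · exact hsym _ _ h
    · trivial
    · trivial
    · exact fun e => h e.symm) (by
    rintro (v | l) (x | l') h
    · have := hRg v x h.1
      show 2 * g v < 2 * g x
      omega
    · have h' : g v = (l' : ℕ) := h
      show 2 * g v < 2 * (l' : ℕ) + 1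
      omega
    · exact h.elim
    · exact h.elim) (by
    rintro (v | l) Q hQ1 hQ2
    · have h1 : (Q.filter fun a => a.isLeft).card ≤ ω := by
        have h2 : (Q.filter fun a => a.isLeft).card = (Q.toLeft).card := by
          rw [← Finset.card_toLeft_add_card_toRight (u := Q.filter fun a => a.isLeft)]
          have e1 : (Q.filter fun a => a.isLeft).toLeft = Q.toLeft := by
            ext x; simp
          have e2 : (Q.filter fun a => a.isLeft).toRight = ∅ := by
            ext x; simp
          rw [e1, e2]; simp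
        rw [h2]
        refine hR2 v _ ?_ ?_
        · intro x hx
          rw [Finset.mem_toLeft] at hx
          exact (hQ1 _ hx).1
        · intro x hx y hy hxy
          rw [Finset.mem_toLeft] at hx hy
          exact hQ2 _ hx _ hy (fun e => hxy (Sum.inl_injective e))
      have h3 : (Q.filter fun a => ¬ a.isLeft).card ≤ 1 := by
        rw [Finset.card_le_one]
        rintro (a | a) ha (b | b) hb
        · simp at ha
        · simp at ha
        · simp at hb
        · rw [Finset.mem_filter] at ha hb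
          have h4 : g v = (a : ℕ) := hQ1 _ ha.1
          have h5 : g v = (b : ℕ) := hQ1 _ hb.1
          rw [Fin.ext (h4.symm.trans h5)]
      have h6 := Finset.card_filter_add_card_filter_not (s := Q) (fun a => (a.isLeft : Prop))
      omega
    · rcases Q.eq_empty_or_nonempty with he | ⟨x, hx⟩
      · rw [he]; simp
      · exact (hQ1 x hx).elim) (by
    rintro (v | l) (x | l') x' hvx hxx' s hs
    · obtain ⟨hvx, evx⟩ := hvx
      have hleft : ∀ a ∈ s, ∃ y, a = Sum.inl y := by
        rintro (y | l) ha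
        · exact ⟨y, rfl⟩
        · exact absurd trivial (hs _ ha).2.1
      rcases x' with x' | l
      · obtain ⟨hxx', exx'⟩ := hxx'
        have h1 : s.card ≤ s.toLeft.card := by
          rw [← Finset.card_toLeft_add_card_toRight (u := s)]
          have : s.toRight = ∅ := by
            rw [Finset.eq_empty_iff_forall_notMem]
            intro l hl
            rw [Finset.mem_toRight] at hl
            obtain ⟨y, hy⟩ := hleft _ hl
            simp at hy
          rw [this]; simp
        refine h1.trans (hR4 v x x' hvx hxx' _ ?_)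
        intro y hy
        rw [Finset.mem_toLeft] at hy
        obtain ⟨⟨a1, a2⟩, a3, a4, a5⟩ := hs _ hy
        have a3' : ¬ Γ y x := a3
        have a4' : ¬ (R y x' ∧ c1 y = c1 x') := a4
        have a5' : 2 * g y ≠ 2 * g x' := a5
        refine ⟨a1, a3', fun h => a4' ⟨h, ?_⟩, fun h => a5' (by rw [h])⟩
        rw [← a2, evx, exx']
      · have : s = ∅ := by
          rw [Finset.eq_empty_iff_forall_notMem]
          intro a ha
          obtain ⟨y, rfl⟩ := hleft a ha
          obtain ⟨⟨a1, a2⟩, a3, a4, a5⟩ := hs _ ha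
          have a4' : ¬ (g y = (l : ℕ)) := a4
          have hxx'' : g x = (l : ℕ) := hxx'
          exact a4' ((hc1' v y x a1 hvx a2 evx).trans hxx'')
        rw [this]; simp
    · exact hxx'.elim
    · exact hvx.elim
    · exact hvx.elim)
  refine ⟨fun v => Fintype.equivFin _ (c1 v, c2 (Sum.inl v)), ?_⟩
  intro v x hvx heq
  have h0 := (Fintype.equivFin _).injective heq
  simp only [Prod.mk.injEq] at h0
  obtain ⟨e1, e2⟩ := h0
  refine hc2 (Sum.inl v) (Sum.inl x) (Sum.inr ⟨g v, hB v⟩) ⟨hvx, e1⟩ rfl ?_ e2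
  have := hRg v x hvx
  show 2 * g v + 1 < 2 * g x
  omega

end Pool.Agent.Helper507.SK
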