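import Pool.Agent.Helper507.SK.Base
import Pool.Agent.Helper507.SK.Jk
set_option autoImplicit false
namespace Pool.Agent.Helper507.SK
open SC

theorem rook {V : Type} (f1 f2 : V → ℕ) (s : Finset V)
    (h : ∀ x ∈ s, ∀ y ∈ s, x ≠ y → f1 x = f1 y ∨ f2 x = f2 y) :
    (∀ x ∈ s, ∀ y ∈ s, f1 x = f1 y) ∨ (∀ x ∈ s, ∀ y ∈ s, f2 x = f2 y) := by
  have h' : ∀ x ∈ s, ∀ y ∈ s, f1 x = f1 y ∨ f2 x = f2 y := by
    intro x hx y hy
    by_cases e : x = y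
    · left; rw [e]
    · exact h x hx y hy e
  by_contra hcon
  push Not at hcon
  obtain ⟨⟨a, ha, b, hb, hab⟩, ⟨c, hc, d, hd, hcd⟩⟩ := hcon
  have h1 := h' a ha b hb
  have h2 := h' c hc d hd
  have h3 := h' a ha c hc
  have h4 := h' a ha d hd
  have h5 := h' b hb c hc
  have h6 := h' b hb d hd
  rcases h1 with h1 | h1 <;> rcases h2 with h2 | h2 <;> rcases h3 with h3 | h3 <;>
    rcases h4 with h4 | h4 <;> rcases h5 with h5 | h5 <;> rcases h6 with h6 | h6 <;>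
    simp_all

theorem core {W : Type} [Finite W] [Nonempty W] (κ : ℕ) (H : SimpleGraph W) {L : List ℕ} (m : ℕ)
    (hR0 : RobK κ H L) (hR1 : RobK κ H (0 :: L)) (hR2 : RobK κ H (0 :: 0 :: L))
    (hE : ∃ s, H.IsNClique κ s) :
    ∃ (C : Type) (_ : Finite C), ∀ (V : Type) [Finite V] (G : SimpleGraph V), G.CliqueFree (κ + 1) →
      ∀ g : V → ℕ, (∀ n, Small κ G {v | g v = n}) →
      (∀ v, ¬ HasC G ((m + 1) :: 0 :: 0 :: L) v {w | g v < g w}) →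
      ∃ c : V → C, ∀ φ : H ↪g G, ∃ x y, c (φ x) ≠ c (φ y) := by
  classical
  obtain ⟨M, hM⟩ := ramsey κ (m + 1)
  obtain ⟨NJ, hNJ⟩ := Jk (κ * (M + 1)) M
  refine ⟨Fin 3 × W × Fin (M + 1) × Fin NJ, inferInstance, ?_⟩
  intro V _ G hfree g hg hbad
  -- general leaf bound
  have LL : ∀ v (S : Set V), HasC G (0 :: 0 :: 0 :: L) v S → (∀ w ∈ S, g v < g w) →
      ∀ s : Finset V, (∀ y ∈ s, G.Adj v y ∧ g v < g y ∧ ∀ w ∈ S, w ≠ y ∧ ¬ G.Adj y w) →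
      s.card ≤ M := by
    intro v S hS hSg s hs
    by_contra hcon
    rcases hM V G.Adj (fun x y h => h.symm) s (by omega) with ⟨Q, hQ1, hQ2, hQ3⟩ | ⟨Y, hYs, hYc, hY3⟩
    · exact small_nbr hfree v Q (fun x hx => (hs x (hQ1 hx)).1) (isNClique_mk hQ2 hQ3)
    have h1 := hasC_leaves hS Y (fun y hy => (hs y (hYs hy)).1)
      (fun y hy z hz => by
        by_cases e : y = z
        · rw [e]; exact G.loopless.irrefl z
        · exact hY3 y hy z hz e)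
      (fun y hy w hw => (hs y (hYs hy)).2.2 w hw)
    rw [hYc] at h1
    refine hbad v (HasC.mono ?_ h1)
    rintro w (hw | hw)
    · exact hSg w hw
    · exact (hs w (hYs hw)).2.1
  have hex : ∀ φ : H ↪g G, ∃ h0, ∀ h, g (φ h0) ≤ g (φ h) := fun φ =>
    Finite.exists_min (fun h => g (φ h))
  choose h0 hh0 using hex
  obtain ⟨mn, hmn⟩ : ∃ mn : (H ↪g G) → ℕ, mn = fun φ => g (φ (h0 φ)) := ⟨_, rfl⟩
  have hmn1 : ∀ φ h, mn φ ≤ g (φ h) := by
    intro φ h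
    rw [hmn]
    exact hh0 φ h
  have hmn2 : ∀ φ, ∃ h, g (φ h) = mn φ := by
    intro φ
    exact ⟨h0 φ, by rw [hmn]⟩
  have hfin : Finite (H ↪g G) :=
    Finite.of_injective (fun φ : H ↪g G => (φ : W → V)) DFunLike.coe_injective
  -- injective ranking
  obtain ⟨r, hrinj, hrmn⟩ : ∃ r : (H ↪g G) → ℕ, Function.Injective r ∧
      ∀ φ ψ, mn φ < mn ψ → r φ < r ψ := by
    obtain ⟨e⟩ := (⟨Finite.equivFin (H ↪g G)⟩ : Nonempty ((H ↪g G) ≃ Fin (Nat.card (H ↪g G))))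
    refine ⟨fun φ => mn φ * Nat.card (H ↪g G) + (e φ : ℕ), ?_, ?_⟩
    · intro φ ψ hh
      have hh' : mn φ * Nat.card (H ↪g G) + (e φ : ℕ) = mn ψ * Nat.card (H ↪g G) + (e ψ : ℕ) := hh
      have h1 := (e φ).2
      have h2 := (e ψ).2
      have h3 : (e φ : ℕ) = (e ψ : ℕ) := by
        have a1 : (mn φ * Nat.card (H ↪g G) + (e φ : ℕ)) % Nat.card (H ↪g G) = (e φ : ℕ) := by
          rw [Nat.mul_comm, Nat.mul_add_mod, Nat.mod_eq_of_lt h1]
        have a2 : (mn ψ * Nat.card (H ↪g G) + (e ψ : ℕ)) % Nat.card (H ↪g G) = (e ψ : ℕ) := by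
          rw [Nat.mul_comm, Nat.mul_add_mod, Nat.mod_eq_of_lt h2]
        rw [← a1, ← a2, hh']
      exact e.injective (Fin.ext h3)
    · intro φ ψ hh
      have h1 := (e φ).2
      have h2 : (mn φ + 1) * Nat.card (H ↪g G) ≤ mn ψ * Nat.card (H ↪g G) :=
        Nat.mul_le_mul_right _ hh
      have h3 : (mn φ + 1) * Nat.card (H ↪g G) = mn φ * Nat.card (H ↪g G) + Nat.card (H ↪g G) := by
        ring
      show mn φ * Nat.card (H ↪g G) + (e φ : ℕ) < mn ψ * Nat.card (H ↪g G) + (e ψ : ℕ)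
      omega
  have hrmn' : ∀ φ ψ, r φ ≤ r ψ → mn φ ≤ mn ψ := by
    intro φ ψ h
    by_contra hcon
    have := hrmn ψ φ (by omega)
    omega
  obtain ⟨A, hA⟩ : ∃ A : (H ↪g G) → V → Prop, A = fun φ v => (∃ h, G.Adj v (φ h)) ∧ g v < mn φ :=
    ⟨_, rfl⟩
  obtain ⟨N, hN⟩ : ∃ N : (H ↪g G) → V → Prop, N = fun φ y => ∃ h, φ h = y ∨ G.Adj y (φ h) :=
    ⟨_, rfl⟩
  obtain ⟨P, hP⟩ : ∃ P : V → Prop, P = fun v => ∃ φ : H ↪g G, (∃ h, φ h = v) ∧ mn φ = g v :=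
    ⟨_, rfl⟩
  have hAi : ∀ φ v, A φ v ↔ (∃ h, G.Adj v (φ h)) ∧ g v < mn φ := by intro φ v; rw [hA]
  have hNi : ∀ φ y, N φ y ↔ ∃ h, φ h = y ∨ G.Adj y (φ h) := by intro φ v; rw [hN]
  have hPi : ∀ v, P v ↔ ∃ φ : H ↪g G, (∃ h, φ h = v) ∧ mn φ = g v := by intro v; rw [hP]
  have Ane : ∀ φ v, g v < mn φ → ∀ h, φ h ≠ v := by
    intro φ v hv h hh
    have := hmn1 φ h
    rw [hh] at this
    omega
  have LL1 : ∀ v φ, A φ v → ∀ s : Finset V, (∀ y ∈ s, G.Adj v y ∧ g v < g y ∧ ¬ N φ y) →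
      s.card ≤ M := by
    intro v φ hv s hs
    obtain ⟨ht, hlt⟩ := (hAi φ v).1 hv
    refine LL v (Set.range φ) (hasC_extK hfree hR2 φ (Ane φ v hlt) ht) ?_ s ?_
    · rintro w ⟨h, rfl⟩
      exact lt_of_lt_of_le hlt (hmn1 φ h)
    · intro y hy
      refine ⟨(hs y hy).1, (hs y hy).2.1, ?_⟩
      rintro w ⟨h, rfl⟩
      refine ⟨fun hh => (hs y hy).2.2 ((hNi φ y).2 ⟨h, Or.inl hh⟩),
        fun hh => (hs y hy).2.2 ((hNi φ y).2 ⟨h, Or.inr hh⟩)⟩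
  have LL2 : ∀ v x φ, G.Adj v x → g v < g x → A φ x →
      ∀ s : Finset V, (∀ y ∈ s, G.Adj v y ∧ g v < g y ∧ y ≠ x ∧ ¬ G.Adj y x ∧ ¬ N φ y) →
      s.card ≤ M := by
    intro v x φ hvx hlt hx s hs
    obtain ⟨ht, hxlt⟩ := (hAi φ x).1 hx
    by_cases hv : ∃ h, G.Adj v (φ h)
    · exact LL1 v φ ((hAi φ v).2 ⟨hv, by omega⟩) s
        (fun y hy => ⟨(hs y hy).1, (hs y hy).2.1, (hs y hy).2.2.2.2⟩)
    · push Not at hv
      refine LL v (insert x (Set.range φ)) (hasC_cons0 hvx ?_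
        (hasC_extK hfree hR1 φ (Ane φ x hxlt) ht)) ?_ s ?_
      · rintro w ⟨h, rfl⟩
        exact ⟨Ane φ v (by omega) h, hv h⟩
      · rintro w (rfl | ⟨h, rfl⟩)
        · exact hlt
        · have := hmn1 φ h
          omega
      · intro y hy
        obtain ⟨hy1, hy2, hy3, hy4, hy5⟩ := hs y hy
        refine ⟨hy1, hy2, ?_⟩
        rintro w (rfl | ⟨h, rfl⟩)
        · exact ⟨fun hh => hy3 hh.symm, hy4⟩
        · refine ⟨fun hh => hy5 ((hNi φ y).2 ⟨h, Or.inl hh⟩),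
            fun hh => hy5 ((hNi φ y).2 ⟨h, Or.inr hh⟩)⟩
  have LL3 : ∀ v x x' φ, G.Adj v x → g v < g x → G.Adj x x' → g x < g x' → A φ x' →
      ∀ s : Finset V, (∀ y ∈ s, G.Adj v y ∧ g v < g y ∧ y ≠ x ∧ ¬ G.Adj y x ∧ y ≠ x' ∧
        ¬ G.Adj y x' ∧ ¬ N φ y) → s.card ≤ M := by
    intro v x x' φ hvx hlt hxx' hlt' hx' s hs
    obtain ⟨ht, hxlt⟩ := (hAi φ x').1 hx'
    by_cases hv : ∃ h, G.Adj v (φ h)
    · exact LL1 v φ ((hAi φ v).2 ⟨hv, by omega⟩) s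
        (fun y hy => ⟨(hs y hy).1, (hs y hy).2.1, (hs y hy).2.2.2.2.2.2⟩)
    by_cases hx : ∃ h, G.Adj x (φ h)
    · exact LL2 v x φ hvx hlt ((hAi φ x).2 ⟨hx, by omega⟩) s
        (fun y hy => ⟨(hs y hy).1, (hs y hy).2.1, (hs y hy).2.2.1, (hs y hy).2.2.2.1,
          (hs y hy).2.2.2.2.2.2⟩)
    by_cases hvx' : G.Adj v x'
    · exact LL2 v x' φ hvx' (by omega) hx' s
        (fun y hy => ⟨(hs y hy).1, (hs y hy).2.1, (hs y hy).2.2.2.2.1, (hs y hy).2.2.2.2.2.1,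
          (hs y hy).2.2.2.2.2.2⟩)
    push Not at hv hx
    refine LL v (insert x (insert x' (Set.range φ))) (hasC_cons0 hvx ?_ (hasC_cons0 hxx' ?_
        (hasC_extK hfree hR0 φ (Ane φ x' hxlt) ht))) ?_ s ?_
    · rintro w (rfl | ⟨h, rfl⟩)
      · exact ⟨fun hh => by rw [hh] at hlt'; omega, hvx'⟩
      · exact ⟨Ane φ v (by omega) h, hv h⟩
    · rintro w ⟨h, rfl⟩
      exact ⟨Ane φ x (by omega) h, hx h⟩
    · rintro w (rfl | rfl | ⟨h, rfl⟩)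
      · exact hlt
      · show g v < g w
        omega
      · have := hmn1 φ h
        show g v < g (φ h)
        omega
    · intro y hy
      obtain ⟨hy1, hy2, hy3, hy4, hy5, hy6, hy7⟩ := hs y hy
      refine ⟨hy1, hy2, ?_⟩
      rintro w (rfl | rfl | ⟨h, rfl⟩)
      · exact ⟨fun hh => hy3 hh.symm, hy4⟩
      · exact ⟨fun hh => hy5 hh.symm, hy6⟩
      · exact ⟨fun hh => hy7 ((hNi φ y).2 ⟨h, Or.inl hh⟩),
          fun hh => hy7 ((hNi φ y).2 ⟨h, Or.inr hh⟩)⟩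
  -- trivial case: no copies at all
  rcases isEmpty_or_nonempty (H ↪g G) with hempty | hne
  · obtain ⟨w0⟩ := ‹Nonempty W›
    by_cases hN0 : NJ = 0
    · subst hN0
      obtain ⟨c, -⟩ := hNJ V g (fun _ _ => False) (fun _ _ => False) (fun _ h => h)
        (fun _ _ h => h) (fun _ _ h => h.elim) (fun v Q h1 _ => by
          rcases Q.eq_empty_or_nonempty with rfl | ⟨x, hx⟩
          · simp
          · exact (h1 x hx).elim) (fun _ _ _ h => h.elim)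
      exact ⟨fun v => (0, w0, 0, c v), fun φ => (hempty.false φ).elim⟩
    · exact ⟨fun _ => (0, w0, 0, ⟨0, Nat.pos_of_ne_zero hN0⟩), fun φ => (hempty.false φ).elim⟩
  obtain ⟨Φ, hΦ⟩ : ∃ Φ : V → (H ↪g G), ∀ v, (∃ φ, A φ v) → A (Φ v) v ∧ ∀ ψ, A ψ v → r ψ ≤ r (Φ v) := by
    have : ∀ v, ∃ φ0 : H ↪g G, (∃ φ, A φ v) → A φ0 v ∧ ∀ ψ, A ψ v → r ψ ≤ r φ0 := by
      intro v
      by_cases h : ∃ φ, A φ v
      · obtain ⟨φ1, hφ1⟩ := h
        have : Nonempty {φ : H ↪g G // A φ v} := ⟨⟨φ1, hφ1⟩⟩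
        obtain ⟨φ0, hφ0⟩ := Finite.exists_max (fun φ : {φ : H ↪g G // A φ v} => r φ.1)
        exact ⟨φ0.1, fun _ => ⟨φ0.2, fun ψ hψ => hφ0 ⟨ψ, hψ⟩⟩⟩
      · obtain ⟨φ1⟩ := hne
        exact ⟨φ1, fun hh => absurd hh h⟩
    choose Φ hΦ using this
    exact ⟨Φ, hΦ⟩
  have F1 : ∀ v x, (∃ φ, A φ v) → P x → G.Adj v x → g v < g x → g x ≤ mn (Φ v) := by
    intro v x hv hx hvx hlt
    obtain ⟨φ, ⟨h, hh⟩, hm⟩ := (hPi x).1 hx
    have hA1 : A φ v := (hAi φ v).2 ⟨⟨h, by rw [hh]; exact hvx⟩, by omega⟩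
    have := hrmn' _ _ ((hΦ v hv).2 φ hA1)
    omega
  have F2 : ∀ y φ, (∃ φ, A φ y) → g y ≤ mn φ → N φ y → r φ ≤ r (Φ y) := by
    intro y φ hy hle hNy
    rcases lt_or_eq_of_le hle with hlt | heq
    · refine (hΦ y hy).2 φ ((hAi φ y).2 ⟨?_, hlt⟩)
      obtain ⟨h, hh | hh⟩ := (hNi φ y).1 hNy
      · exact absurd hh (Ane φ y hlt h)
      · exact ⟨h, hh⟩
    · have h1 := ((hAi _ _).1 (hΦ y hy).1).2
      exact le_of_lt (hrmn _ _ (by omega))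
  -- V2
  obtain ⟨V2, hV2⟩ : ∃ V2 : V → Prop, ∀ v, V2 v ↔ P v ∧ ∃ φ, A φ v := ⟨_, fun v => Iff.rfl⟩
  obtain ⟨cw, hcw⟩ : ∃ cw : V → W, ∀ v, V2 v → G.Adj v (Φ v (cw v)) := by
    have : ∀ v, ∃ w : W, V2 v → G.Adj v (Φ v w) := by
      intro v
      by_cases h : V2 v
      · obtain ⟨w, hw⟩ := ((hAi _ _).1 (hΦ v ((hV2 v).1 h).2).1).1
        exact ⟨w, fun _ => hw⟩
      · obtain ⟨w0⟩ := ‹Nonempty W›
        exact ⟨w0, fun hh => absurd hh h⟩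
    choose cw hcw using this
    exact ⟨cw, hcw⟩
  have V2A : ∀ v, V2 v → ∃ φ, A φ v := fun v hv => ((hV2 v).1 hv).2
  have V2P : ∀ v, V2 v → P v := fun v hv => ((hV2 v).1 hv).1
  obtain ⟨e1, he1⟩ := degen_col g (fun v x => V2 v ∧ V2 x ∧ G.Adj v x ∧ ¬ N (Φ v) x) M (by
    intro v s hs
    rcases s.eq_empty_or_nonempty with rfl | ⟨y0, hy0⟩
    · simp
    · have hv := (hs y0 hy0).1.1
      exact LL1 v (Φ v) (hΦ v (V2A v hv)).1 s
        (fun y hy => ⟨(hs y hy).1.2.2.1, (hs y hy).2, (hs y hy).1.2.2.2⟩))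
  obtain ⟨R2, hR2i⟩ : ∃ R2 : V → V → Prop, ∀ v x, R2 v x ↔
      V2 v ∧ V2 x ∧ G.Adj v x ∧ g v < g x ∧ cw v = cw x ∧ e1 v = e1 x := ⟨_, fun v x => Iff.rfl⟩
  have hst : ∀ v x, R2 v x → r (Φ v) ≤ r (Φ x) := by
    intro v x h
    obtain ⟨hv, hx, hvx, hlt, hc, he⟩ := (hR2i v x).1 h
    have hNx : N (Φ v) x := by
      by_contra hcon
      exact he1 v x ⟨hv, hx, hvx, hcon⟩ hlt he
    exact F2 x (Φ v) (V2A x hx) (F1 v x (V2A v hv) (V2P x hx) hvx hlt) hNx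
  obtain ⟨R, hRi⟩ : ∃ R : V → V → Prop, ∀ v x, R v x ↔ R2 v x ∧ r (Φ v) < r (Φ x) :=
    ⟨_, fun v x => Iff.rfl⟩
  obtain ⟨Γ, hΓ⟩ : ∃ Γ : V → V → Prop, ∀ x y, Γ x y ↔ G.Adj x y ∨ r (Φ x) ≠ r (Φ y) :=
    ⟨_, fun x y => Iff.rfl⟩
  have Rg : ∀ v x, R v x → g v < g x := fun v x h => ((hR2i v x).1 ((hRi v x).1 h).1).2.2.2.1
  have H3 : ∀ v x, R v x → ∀ s : Finset V, (∀ y ∈ s, R v y ∧ r (Φ y) < r (Φ x) ∧ ¬ G.Adj y x) →
      s.card ≤ M := by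
    intro v x hvx s hs
    obtain ⟨h2, hlt⟩ := (hRi v x).1 hvx
    obtain ⟨v2v, v2x, avx, gvx, -, -⟩ := (hR2i v x).1 h2
    refine LL2 v x (Φ x) avx gvx (hΦ x (V2A x v2x)).1 s ?_
    intro y hy
    obtain ⟨hvy, hyx, hny⟩ := hs y hy
    obtain ⟨h2y, hlty⟩ := (hRi v y).1 hvy
    obtain ⟨-, v2y, avy, gvy, -, -⟩ := (hR2i v y).1 h2y
    refine ⟨avy, gvy, ?_, hny, ?_⟩
    · intro e
      rw [e] at hyx
      omega
    · intro hNy
      have hle : g y ≤ mn (Φ x) :=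
        (F1 v y (V2A v v2v) (V2P y v2y) avy gvy).trans (hrmn' _ _ hlt.le)
      have := F2 y (Φ x) (V2A y v2y) hle hNy
      omega
  obtain ⟨e3, he3⟩ := hNJ V g Γ R (by
    intro x h
    rcases (hΓ x x).1 h with h | h
    · exact G.loopless.irrefl x h
    · exact h rfl) (by
    intro x y h
    rw [hΓ] at h ⊢
    rcases h with h | h
    · exact Or.inl h.symm
    · exact Or.inr h.symm) Rg (by
    intro v Q hQ1 hQ2
    obtain ⟨Q', h1, h2, h3⟩ := clq G.Adj (fun x y h => h.symm) (fun x => r (Φ x)) M Q.card Q rfl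
      (fun x hx y hy hxy => (hΓ x y).1 (hQ2 x hx y hy hxy)) (by
        intro x hx s hs
        refine H3 v x (hQ1 x hx) s ?_
        intro y hy
        exact ⟨hQ1 y (hs y hy).1, (hs y hy).2.1, (hs y hy).2.2⟩)
    have h4 : Q'.card ≤ κ := by
      by_contra hcon
      obtain ⟨Q'', h5, h6⟩ := Finset.exists_subset_card_eq (show κ ≤ Q'.card by omega)
      refine small_nbr hfree v Q'' ?_ (isNClique_mk h6 ?_)
      · intro x hx
        exact ((hR2i v x).1 ((hRi v x).1 (hQ1 x (h1 (h5 hx)))).1).2.2.1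
      · intro x hx y hy hxy
        exact h3 x (h5 hx) y (h5 hy) hxy
    exact h2.trans (Nat.mul_le_mul_right _ h4)) (by
    intro v x x' hvx hxx' s hs
    obtain ⟨a1, a2⟩ := (hRi v x).1 hvx
    obtain ⟨b1, b2⟩ := (hRi x x').1 hxx'
    obtain ⟨v2v, v2x, adjvx, gvx, cvx, evx⟩ := (hR2i v x).1 a1
    obtain ⟨-, v2x', adjxx', gxx', cxx', exx'⟩ := (hR2i x x').1 b1
    refine LL3 v x x' (Φ x') adjvx gvx adjxx' gxx' (hΦ x' (V2A x' v2x')).1 s ?_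
    intro y hy
    obtain ⟨hvy, hyx, hny, hgy⟩ := hs y hy
    rw [hΓ] at hyx
    push Not at hyx
    obtain ⟨hyx1, hyx2⟩ := hyx
    obtain ⟨c1, c2⟩ := (hRi v y).1 hvy
    obtain ⟨-, v2y, adjvy, gvy, cvy, evy⟩ := (hR2i v y).1 c1
    refine ⟨adjvy, gvy, ?_, hyx1, ?_, ?_, ?_⟩
    · intro e
      rw [e] at hny
      exact hny hxx'
    · intro e
      rw [e] at hgy
      exact hgy rfl
    · intro hadj
      rcases lt_or_gt_of_ne hgy with hlt | hlt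
      · exact hny ((hRi y x').2 ⟨(hR2i y x').2 ⟨v2y, v2x', hadj, hlt, by rw [← cvy, cvx, cxx'],
          by rw [← evy, evx, exx']⟩, by omega⟩)
      · have := hst x' y ((hR2i x' y).2 ⟨v2x', v2y, hadj.symm, hlt, by rw [← cvy, cvx, cxx'],
          by rw [← evy, evx, exx']⟩)
        omega
    · intro hNy
      have hle : g y ≤ mn (Φ x') :=
        (F1 v y (V2A v v2v) (V2P y v2y) adjvy gvy).trans (hrmn' _ _ (by omega))
      have := F2 y (Φ x') (V2A y v2y) hle hNy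
      omega)
  refine ⟨fun v => (if ¬ P v then 0 else if ¬ (∃ φ, A φ v) then 1 else 2, cw v, e1 v, e3 v), ?_⟩
  intro φ
  by_contra hcon0
  have hcon' : ∀ x y, (if ¬ P (φ x) then (0 : Fin 3) else if ¬ (∃ ψ, A ψ (φ x)) then 1 else 2) =
      (if ¬ P (φ y) then (0 : Fin 3) else if ¬ (∃ ψ, A ψ (φ y)) then 1 else 2) ∧
      cw (φ x) = cw (φ y) ∧ e1 (φ x) = e1 (φ y) ∧ e3 (φ x) = e3 (φ y) := by
    intro x y
    have : (if ¬ P (φ x) then (0 : Fin 3) else if ¬ (∃ ψ, A ψ (φ x)) then 1 else 2,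
        cw (φ x), e1 (φ x), e3 (φ x)) =
        (if ¬ P (φ y) then (0 : Fin 3) else if ¬ (∃ ψ, A ψ (φ y)) then 1 else 2,
        cw (φ y), e1 (φ y), e3 (φ y)) := by
      by_contra h
      exact hcon0 ⟨x, y, h⟩
    simpa only [Prod.mk.injEq] using this
  have hPh : P (φ (h0 φ)) := by
    refine (hPi _).2 ⟨φ, ⟨h0 φ, rfl⟩, ?_⟩
    rw [hmn]
  have hPall : ∀ x, P (φ x) := by
    intro x
    by_contra hx
    have := (hcon' x (h0 φ)).1
    by_cases hA2 : ∃ ψ, A ψ (φ (h0 φ))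
    · simp [hx, hPh, hA2] at this
    · simp [hx, hPh, hA2] at this
  have main : ∀ a b, H.Adj a b → g (φ a) < g (φ b) → r (Φ (φ a)) = r (Φ (φ b)) ∧ V2 (φ a) := by
    intro a b hab hlt
    have hadj : G.Adj (φ a) (φ b) := φ.map_adj_iff.2 hab
    obtain ⟨ψ, ⟨h, hh⟩, hm⟩ := (hPi _).1 (hPall b)
    have hAa : ∃ ψ, A ψ (φ a) := ⟨ψ, (hAi _ _).2 ⟨⟨h, by rw [hh]; exact hadj⟩, by omega⟩⟩
    have hAb : ∃ ψ, A ψ (φ b) := by
      by_contra hx
      have := (hcon' a b).1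
      simp [hPall a, hPall b, hAa, hx] at this
    obtain ⟨-, q1, q2, q4⟩ := hcon' a b
    have hR2 : R2 (φ a) (φ b) := (hR2i _ _).2 ⟨(hV2 _).2 ⟨hPall a, hAa⟩,
      (hV2 _).2 ⟨hPall b, hAb⟩, hadj, hlt, q1, q2⟩
    refine ⟨le_antisymm (hst _ _ hR2) ?_, (hV2 _).2 ⟨hPall a, hAa⟩⟩
    by_contra hcon
    exact he3 (φ a) (φ b) ((hRi _ _).2 ⟨hR2, by omega⟩) q4
  obtain ⟨s, hs⟩ := hE
  rcases rook (fun x => g (φ x)) (fun x => r (Φ (φ x))) s (by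
    intro x hx y hy hxy
    have hadj := hs.1 hx hy hxy
    rcases lt_trichotomy (g (φ x)) (g (φ y)) with h | h | h
    · exact Or.inr (main x y hadj h).1
    · exact Or.inl h
    · exact Or.inr (main y x hadj.symm h).1.symm) with h | h
  · rcases s.eq_empty_or_nonempty with he | ⟨x0, hx0⟩
    · rw [he] at hs
      have hκ : κ = 0 := by
        have := hs.2
        simpa using this.symm
      rw [hκ] at hg
      exact hg 0 ∅ (by simp) (isNClique_mk rfl (by simp))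
    · exact ((hg (g (φ x0))).comap φ) s (fun x hx => h x hx x0 hx0) hs
  · -- all in the same template
    by_cases hall : ∀ x ∈ s, ∀ y ∈ s, g (φ x) = g (φ y)
    · rcases s.eq_empty_or_nonempty with he | ⟨x0, hx0⟩
      · rw [he] at hs
        have hκ : κ = 0 := by
          have := hs.2
          simpa using this.symm
        rw [hκ] at hg
        exact hg 0 ∅ (by simp) (isNClique_mk rfl (by simp))
      · exact ((hg (g (φ x0))).comap φ) s (fun x hx => hall x hx x0 hx0) hs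
    · push Not at hall
      obtain ⟨a, ha, b, hb, hab⟩ := hall
      have hne' : a ≠ b := fun e => hab (by rw [e])
      have hadj := hs.1 ha hb hne'
      have hV2a : ∃ a ∈ s, V2 (φ a) := by
        rcases lt_or_gt_of_ne hab with h1 | h1
        · exact ⟨a, ha, (main a b hadj h1).2⟩
        · exact ⟨b, hb, (main b a hadj.symm h1).2⟩
      obtain ⟨a, ha, v2a⟩ := hV2a
      have hV2all : ∀ x, V2 (φ x) := by
        intro x
        refine (hV2 _).2 ⟨hPall x, ?_⟩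
        by_contra hx
        have := (hcon' a x).1
        simp [hPall a, hPall x, V2A _ v2a, hx] at this
      have hΦall : ∀ x ∈ s, G.Adj (φ x) (Φ (φ a) (cw (φ a))) := by
        intro x hx
        have h1 := hcw (φ x) (hV2all x)
        rw [hrinj (h x hx a ha), (hcon' x a).2.1] at h1
        exact h1
      exact ((small_nbr hfree (Φ (φ a) (cw (φ a)))).comap φ) s
        (fun x hx => (hΦall x hx).symm) hs

end Pool.Agent.Helper507.SK
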