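import Pool.Agent.Helper507.SK.Robust
import Pool.Agent.Helper507.SC.Final
import Pool.Agent.Helper507.SC.Interface
set_option autoImplicit false
namespace Pool.Agent.Helper507.SK
open SC (HasC Good)

variable {κ : ℕ} {F : ∀ {V : Type}, SimpleGraph V → Prop}

theorem RobS.leg (hF : Cls κ F) {L : List ℕ} (m : ℕ) (hL : RobS κ F [L]) :
    RobS κ F [(m + 1) :: 0 :: 0 :: L] := by
  classical
  by_contra hcon
  have h1 := RobS.up hF hL
  have h2 := RobS.up hF h1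
  obtain ⟨W, _, _, H, hH, hr⟩ := RobS.append hF (RobS.append hF hL h1) (RobS.append hF h2 (robS_zero hF))
  obtain ⟨C, _, hC⟩ := core κ H m (hr L (by simp)) (hr (0 :: L) (by simp)) (hr (0 :: 0 :: L) (by simp))
    (exists_clique (hr [0] (by simp)))
  obtain ⟨V, _, G, hG, huns⟩ := hF.uns W H hH (Nat.card C)
  obtain ⟨g, τ, h1, h2, h3⟩ := peel hF hcon _ V G rfl hG
  have h3' : ∀ v, ¬ HasC G ((m + 1) :: 0 :: 0 :: L) v {w | g v < g w} := by
    intro v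
    have := h1 v
    simp only [List.mem_singleton] at this
    rw [← this]
    exact h3 v
  obtain ⟨c, hc⟩ := hC V G (hF.free G hG) g h2 h3'
  obtain ⟨e, he⟩ := huns (fun v => Finite.equivFin C (c v))
  obtain ⟨x, y, hxy⟩ := hc e
  exact hxy ((Finite.equivFin C).injective (he x y))

theorem good_rob (hF : Cls κ F) {L : List ℕ} (h : Good L) : RobS κ F [L] := by
  induction h with
  | nil => exact robS_nil hF
  | zero _ ih => exact RobS.up hF ih
  | leg m _ ih => exact RobS.leg hF m ih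

/-- two robust rooted caterpillars can be joined by an edge between their roots -/
theorem glue (hF : Cls κ F) {B C : List ℕ} (hB : RobS κ F [B]) (hC : RobS κ F [C]) :
    ∃ (V : Type) (_ : Finite V) (G : SimpleGraph V) (v u : V) (S₁ S₂ : Set V), F G ∧ G.Adj v u ∧
      HasC G C v S₁ ∧ v ∉ S₁ ∧ HasC G B u S₂ ∧ u ∉ S₂ ∧
      ∀ a, (a = v ∨ a ∈ S₁) → ∀ b, (b = u ∨ b ∈ S₂) → a ≠ b ∧ (G.Adj a b → a = v ∧ b = u) := by
  classical
  obtain ⟨W1, _, _, H1, hH1, hr1⟩ := RobS.append hF hB (robS_zero hF)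
  obtain ⟨W2, _, _, H2, hH2, hr2⟩ := RobS.append hF hC (robS_zero hF)
  have hB1 : RobK κ H1 B := hr1 B (by simp)
  have hB0 : RobK κ H1 [0] := hr1 [0] (by simp)
  have hC1 : RobK κ H2 C := hr2 C (by simp)
  obtain ⟨s0, hs0⟩ := exists_clique (hr2 [0] (by simp))
  obtain ⟨V, _, G, hG, huns⟩ := hF.uns (W1 ⊕ W2) (H1 ⊕g H2) (hF.sum _ _ hH1 hH2)
    (Nat.card (Option (Bool × W1)))
  have hfree := hF.free G hG
  have hfin : Finite (H1 ↪g G) :=
    Finite.of_injective (fun φ : H1 ↪g G => (φ : W1 → V)) DFunLike.coe_injective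
  have := Fintype.ofFinite (H1 ↪g G)
  obtain ⟨r, hr⟩ : ∃ r : (H1 ↪g G) → ℕ, Function.Injective r :=
    ⟨fun φ => (Finite.equivFin (H1 ↪g G) φ : ℕ), fun a b h =>
      (Finite.equivFin (H1 ↪g G)).injective (Fin.ext h)⟩
  obtain ⟨Ok, hOk⟩ : ∃ Ok : Finset (H1 ↪g G) → Prop, ∀ R, Ok R ↔
      ∀ φ ∈ R, ∀ ψ ∈ R, φ ≠ ψ → ∀ a b, φ a ≠ ψ b ∧ ¬ G.Adj (φ a) (ψ b) := ⟨_, fun R => Iff.rfl⟩
  obtain ⟨R, hRm, hRmax⟩ := Finset.exists_max_image (Finset.univ.filter Ok) Finset.card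
    ⟨∅, by rw [Finset.mem_filter, hOk]; simp⟩
  rw [Finset.mem_filter] at hRm
  have hROk := (hOk R).1 hRm.2
  -- touching
  obtain ⟨T, hT⟩ : ∃ T : (H1 ↪g G) → V → Prop, ∀ φ v, T φ v ↔ ∃ a, φ a = v ∨ G.Adj v (φ a) :=
    ⟨_, fun _ _ => Iff.rfl⟩
  have hmin : ∀ v, ∃ φ0 : Option (H1 ↪g G), (φ0 = none ∧ ∀ φ ∈ R, ¬ T φ v) ∨
      ∃ φ ∈ R, φ0 = some φ ∧ T φ v ∧ ∀ ψ ∈ R, T ψ v → r φ ≤ r ψ := by
    intro v
    by_cases h : ∃ φ ∈ R, T φ v
    · obtain ⟨φ1, h1, h2⟩ := h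
      obtain ⟨φ, h3, h4⟩ := Finset.exists_min_image (R.filter fun φ => T φ v) r
        ⟨φ1, Finset.mem_filter.2 ⟨h1, h2⟩⟩
      rw [Finset.mem_filter] at h3
      exact ⟨some φ, Or.inr ⟨φ, h3.1, rfl, h3.2, fun ψ hψ hT => h4 ψ (Finset.mem_filter.2 ⟨hψ, hT⟩)⟩⟩
    · push Not at h
      exact ⟨none, Or.inl ⟨rfl, h⟩⟩
  choose Φ hΦ using hmin
  -- colour
  have hcol : ∀ v, ∃ c : Option (Bool × W1), (c = none → ∀ φ ∈ R, ¬ T φ v) ∧
      (∀ w, c = some (true, w) → ∃ φ ∈ R, φ w = v) ∧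
      (∀ w, c = some (false, w) → (∀ φ ∈ R, ∀ a, φ a ≠ v) ∧
        ∃ φ ∈ R, G.Adj v (φ w) ∧ ∀ ψ ∈ R, T ψ v → r φ ≤ r ψ) := by
    intro v
    by_cases hin : ∃ φ ∈ R, ∃ a, φ a = v
    · obtain ⟨φ, hφ, a, ha⟩ := hin
      refine ⟨some (true, a), by simp, ?_, by simp⟩
      intro w hw
      simp only [Option.some.injEq, Prod.mk.injEq, true_and] at hw
      exact ⟨φ, hφ, by rw [← hw]; exact ha⟩
    · push Not at hin
      rcases hΦ v with ⟨-, h⟩ | ⟨φ, hφ, -, hTφ, hφmin⟩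
      · exact ⟨none, fun _ => h, by simp, by simp⟩
      · obtain ⟨a, ha⟩ := (hT φ v).1 hTφ
        have ha' : G.Adj v (φ a) := by
          rcases ha with h | h
          · exact absurd h (hin φ hφ a)
          · exact h
        refine ⟨some (false, a), by simp, by simp, ?_⟩
        intro w hw
        simp only [Option.some.injEq, Prod.mk.injEq, true_and] at hw
        rw [← hw]
        exact ⟨hin, φ, hφ, ha', hφmin⟩
  choose c hc1 hc2 hc3 using hcol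
  obtain ⟨e, he⟩ := huns (fun v => Finite.equivFin _ (c v))
  have he' : ∀ x y, c (e x) = c (e y) := fun x y => (Finite.equivFin _).injective (he x y)
  obtain ⟨w1⟩ := ‹Nonempty W1›
  obtain ⟨w2⟩ := ‹Nonempty W2›
  rcases hcv : c (e (Sum.inl w1)) with _ | ⟨_ | _, w⟩
  · -- colour none: contradiction with maximality
    exfalso
    let φ1 : H1 ↪g G := e.comp SimpleGraph.Embedding.sumInl
    have hun : ∀ a, ∀ φ ∈ R, ¬ T φ (φ1 a) := by
      intro a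
      exact hc1 _ ((he' (Sum.inl a) (Sum.inl w1)).trans hcv)
    have hnot : φ1 ∉ R := fun h => hun w1 φ1 h ((hT _ _).2 ⟨w1, Or.inl rfl⟩)
    have hOk' : Ok (insert φ1 R) := by
      rw [hOk]
      intro φ hφ ψ hψ hne a b
      rcases Finset.mem_insert.1 hφ with h1 | h1
      · rcases Finset.mem_insert.1 hψ with h2 | h2
        · exact absurd (h1.trans h2.symm) hne
        · rw [h1]
          refine ⟨fun h => hun a ψ h2 ((hT _ _).2 ⟨b, Or.inl h.symm⟩),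
            fun h => hun a ψ h2 ((hT _ _).2 ⟨b, Or.inr h⟩)⟩
      · rcases Finset.mem_insert.1 hψ with h2 | h2
        · rw [h2]
          refine ⟨fun h => hun b φ h1 ((hT _ _).2 ⟨a, Or.inl h⟩),
            fun h => hun b φ h1 ((hT _ _).2 ⟨a, Or.inr h.symm⟩)⟩
        · exact hROk φ h1 ψ h2 hne a b
    have := hRmax _ (Finset.mem_filter.2 ⟨Finset.mem_univ _, hOk'⟩)
    rw [Finset.card_insert_of_notMem hnot] at this
    omega
  · -- colour (false, w): the real case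
    let ψ : H2 ↪g G := e.comp SimpleGraph.Embedding.sumInr
    have hcψ : ∀ x, c (ψ x) = some (false, w) := fun x => (he' (Sum.inr x) (Sum.inl w1)).trans hcv
    have hch : ∀ x, ∃ φ ∈ R, G.Adj (ψ x) (φ w) ∧ ∀ φ' ∈ R, T φ' (ψ x) → r φ ≤ r φ' :=
      fun x => (hc3 _ w (hcψ x)).2
    choose Ψ hΨ1 hΨ2 hΨ3 using hch
    obtain ⟨x0, hx0⟩ := Finite.exists_min (fun x => r (Ψ x))
    obtain ⟨x, hx, hcop⟩ := hC1 {x | Ψ x = Ψ x0} ⟨x0, rfl⟩ (by
      refine Small.mono ?_ ((small_nbr hfree (Ψ x0 w)).comap ψ)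
      intro x hx
      have hx' : Ψ x = Ψ x0 := hx
      have := (hΨ2 x).symm
      rw [hx'] at this
      exact this)
    have hx' : Ψ x = Ψ x0 := hx
    have hadj := hΨ2 x
    rw [hx'] at hadj
    have hnotin : ∀ y a, Ψ x0 a ≠ ψ y := fun y a => (hc3 _ w (hcψ y)).1 _ (hΨ1 x0) a
    have hunt : ∀ y, Ψ y ≠ Ψ x0 → ∀ a, ¬ G.Adj (ψ y) (Ψ x0 a) := by
      intro y hy a hya
      have h1 := hΨ3 y (Ψ x0) (hΨ1 x0) ((hT _ _).2 ⟨a, Or.inr hya⟩)
      exact hy (hr (le_antisymm h1 (hx0 y)))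
    obtain ⟨u, hu, hcopB⟩ := hB1 ((Ψ x0) ⁻¹' {z | G.Adj (ψ x) z}) ⟨w, hadj⟩
      ((small_nbr hfree (ψ x)).comap (Ψ x0))
    refine ⟨V, inferInstance, G, ψ x, Ψ x0 u, ψ '' {x | Ψ x = Ψ x0}ᶜ,
      (Ψ x0) '' ((Ψ x0) ⁻¹' {z | G.Adj (ψ x) z})ᶜ, hG, hu, HasC.map ψ hcop, ?_,
      HasC.map (Ψ x0) hcopB, ?_, ?_⟩
    · rintro ⟨y, hy, hyx⟩
      exact hy (by rw [ψ.injective hyx]; exact hx')
    · rintro ⟨y, hy, hyu⟩
      exact hy (by rw [(Ψ x0).injective hyu]; exact hu)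
    · intro a ha b hb
      have hb' : ∃ z, b = Ψ x0 z ∧ (b = Ψ x0 u ∨ ¬ G.Adj (ψ x) (Ψ x0 z)) := by
        rcases hb with rfl | ⟨z, hz, rfl⟩
        · exact ⟨u, rfl, Or.inl rfl⟩
        · exact ⟨z, rfl, Or.inr hz⟩
      obtain ⟨z, hbz, hz⟩ := hb'
      rcases ha with rfl | ⟨y, hy, rfl⟩
      · refine ⟨fun h => hnotin x z (by rw [← hbz]; exact h.symm), fun h => ⟨rfl, ?_⟩⟩
        rcases hz with hz | hz
        · exact hz
        · rw [hbz] at h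
          exact absurd h hz
      · refine ⟨fun h => hnotin y z (by rw [← hbz]; exact h.symm), fun h => ?_⟩
        rw [hbz] at h
        exact absurd h (hunt y hy z)
  · -- colour (true, w): the whole copy is independent
    exfalso
    have hcψ : ∀ x, c (e (Sum.inr x)) = some (true, w) := fun x => (he' (Sum.inr x) (Sum.inl w1)).trans hcv
    have hs2 : 1 < s0.card := by
      rw [hs0.2]
      have := hF.two
      omega
    obtain ⟨a, ha, b, hb, hab⟩ := Finset.one_lt_card.1 hs2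
    have hadj : G.Adj (e (Sum.inr a)) (e (Sum.inr b)) := by
      rw [e.map_adj_iff]
      simpa using hs0.1 ha hb hab
    obtain ⟨φ, h1, h2⟩ := hc2 _ w (hcψ a)
    obtain ⟨φ', h3, h4⟩ := hc2 _ w (hcψ b)
    rw [← h2, ← h4] at hadj
    by_cases hφ : φ = φ'
    · rw [hφ] at hadj
      exact G.loopless.irrefl _ hadj
    · exact (hROk φ h1 φ' h3 hφ w w).2 hadj

end Pool.Agent.Helper507.SK
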