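import Pool.Agent.Helper507.SK.Final
import Pool.Agent.Helper507.SC.Embed
set_option autoImplicit false
namespace Pool.Agent.Helper507.SK
open SC (HasC Good CatAdj hasC_embed good_list conn_sum)

/-- the class of `T`-free and `K_k`-free graphs -/
def FT {m : ℕ} (T : SimpleGraph (Fin m)) (k : ℕ) : ∀ {V : Type}, SimpleGraph V → Prop :=
  fun {_} G => IsEmpty (T ↪g G) ∧ IsEmpty ((⊤ : SimpleGraph (Fin k)) ↪g G)

theorem tree_no_triangle {V : Type} {T : SimpleGraph V} (hT : T.IsTree) {a b c : V}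
    (hab : T.Adj a b) (hbc : T.Adj b c) (hac : T.Adj a c) : False := by
  have h := hT.isAcyclic
  rw [SimpleGraph.isAcyclic_iff_path_unique] at h
  have hab' : a ≠ b := hab.ne
  have hbc' : b ≠ c := hbc.ne
  have hac' : a ≠ c := hac.ne
  let p : T.Path a c := ⟨SimpleGraph.Walk.cons hac SimpleGraph.Walk.nil, by simp [hac']⟩
  let q : T.Path a c := ⟨SimpleGraph.Walk.cons hab (SimpleGraph.Walk.cons hbc SimpleGraph.Walk.nil), by
    simp [hab', hbc', hac']⟩
  have hpq := h p q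
  have := congrArg (fun r : T.Path a c => r.1.length) hpq
  simp [p, q] at this

theorem cls_of_not_split {m : ℕ} (T : SimpleGraph (Fin m)) (hT : T.IsTree) (hm : 3 ≤ m)
    (κ : ℕ) (hκ : 2 ≤ κ)
    (hns : ¬ ∃ c : ℕ, ∃ (n : ℕ) (β : SimpleGraph (Fin n)),
        IsEmpty (T ↪g β) ∧ IsEmpty ((⊤ : SimpleGraph (Fin (κ + 1))) ↪g β) ∧
        ∀ (p : ℕ) (γ : SimpleGraph (Fin p)),
          IsEmpty (T ↪g γ) → IsEmpty ((⊤ : SimpleGraph (Fin (κ + 1))) ↪g γ) →
          ∃ f : Fin p → Fin c, ∀ e : β ↪g γ, ∃ x y : Fin n, f (e x) ≠ f (e y)) :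
    Cls κ (FT T (κ + 1)) := by
  classical
  refine ⟨?_, ?_, ?_, hκ, ?_, ?_⟩
  · rintro V W G G' ⟨e⟩ ⟨h1, h2⟩
    exact ⟨⟨fun f => h1.false (e.comp f)⟩, ⟨fun f => h2.false (e.comp f)⟩⟩
  · rintro V W G G' ⟨h1, h2⟩ ⟨h3, h4⟩
    refine ⟨⟨fun e => ?_⟩, ⟨fun e => ?_⟩⟩
    · rcases conn_sum hT.connected e with h | h
      · obtain ⟨f⟩ := h
        exact h1.false f
      · obtain ⟨f⟩ := h
        exact h3.false f
    · rcases conn_sum SimpleGraph.connected_top e with h | h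
      · obtain ⟨f⟩ := h
        exact h2.false f
      · obtain ⟨f⟩ := h
        exact h4.false f
  · rintro V G ⟨-, h2⟩
    by_contra hcf
    exact h2.false (SimpleGraph.topEmbeddingOfNotCliqueFree hcf)
  · refine ⟨⟨fun e => ?_⟩, ⟨fun e => ?_⟩⟩
    · have hadj : ∀ a b : Fin m, a ≠ b → T.Adj a b := by
        intro a b hab
        rw [← e.map_adj_iff]
        simpa using hab
      have h01 : (⟨0, by omega⟩ : Fin m) ≠ ⟨1, by omega⟩ := by simp
      have h12 : (⟨1, by omega⟩ : Fin m) ≠ ⟨2, by omega⟩ := by simp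
      have h02 : (⟨0, by omega⟩ : Fin m) ≠ ⟨2, by omega⟩ := by simp
      exact tree_no_triangle hT (hadj _ _ h01) (hadj _ _ h12) (hadj _ _ h02)
    · have := Fintype.card_le_of_injective e e.injective
      simp at this
  · intro W _ H hH c
    obtain ⟨h1, h2⟩ := hH
    by_contra hcon
    apply hns
    obtain ⟨E⟩ : Nonempty (W ≃ Fin (Nat.card W)) := ⟨Finite.equivFin W⟩
    let β : SimpleGraph (Fin (Nat.card W)) := H.map E.toEmbedding
    let I : H ≃g β := SimpleGraph.Iso.map E H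
    refine ⟨c, Nat.card W, β, ⟨fun f => h1.false (I.symm.toEmbedding.comp f)⟩,
      ⟨fun f => h2.false (I.symm.toEmbedding.comp f)⟩, ?_⟩
    intro p γ hγ1 hγ2
    by_contra hcon2
    push Not at hcon2
    refine hcon ⟨Fin p, inferInstance, γ, ⟨hγ1, hγ2⟩, ?_⟩
    intro f
    obtain ⟨e, he⟩ := hcon2 f
    exact ⟨e.comp I.toEmbedding, fun x y => he _ _⟩

/-- the glued caterpillar as a map on `ℕ × ℕ` -/
theorem glued {κ : ℕ} {F : ∀ {V : Type}, SimpleGraph V → Prop} (hF : Cls κ F) (n p : ℕ) (ℓ : ℕ → ℕ)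
    (hℓ : ∀ i j, i < j → j < n → (j < p ∨ p ≤ i) → ℓ i ≠ 0 → ℓ j ≠ 0 → i + 3 ≤ j) :
    ∃ (V : Type) (_ : Finite V) (G : SimpleGraph V), F G ∧ ∃ E : ℕ → ℕ → V,
      ∀ i j i' j', i < n → j ≤ ℓ i → i' < n → j' ≤ ℓ i' →
        (E i j = E i' j' → i = i' ∧ j = j') ∧ (G.Adj (E i j) (E i' j') ↔ CatAdj i j i' j') := by
  -- the two halves; `q = min p n`
  obtain ⟨q, hq⟩ : ∃ q, q = min p n := ⟨_, rfl⟩
  have hqp : q ≤ p := by omega
  have hqn : q ≤ n := by omega
  have hq' : q < n → q = p := by omega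
  obtain ⟨B, hB, hBlen, hBl⟩ := good_list q (fun i => ℓ (q - 1 - i)) (by
    intro i j hij hj hi hj'
    have := hℓ (q - 1 - j) (q - 1 - i) (by omega) (by omega) (Or.inl (by omega)) hj' hi
    omega)
  obtain ⟨C, hC, hClen, hCl⟩ := good_list (n - q) (fun i => ℓ (q + i)) (by
    intro i j hij hj hi hj'
    have := hℓ (q + i) (q + j) (by omega) (by omega) (Or.inr (by omega)) hi hj'
    omega)
  obtain ⟨V, i1, G, v, u, S₁, S₂, hG, hvu, hC', hvS, hB', huS, hcross⟩ :=
    glue hF (good_rob hF hB) (good_rob hF hC)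
  obtain ⟨E1, h10, h11, h12⟩ := hasC_embed G C v S₁ hC' hvS (n - q) (fun i => ℓ (q + i)) (by omega) hCl
  obtain ⟨E2, h20, h21, h22⟩ := hasC_embed G B u S₂ hB' huS q (fun i => ℓ (q - 1 - i)) (by omega) hBl
  refine ⟨V, i1, G, hG, fun i j => if i < q then E2 (q - 1 - i) j else E1 (i - q) j, ?_⟩
  have m1 : ∀ i j, i < n → ¬ i < q → j ≤ ℓ i →
      ((i = q ∧ j = 0 ∧ E1 (i - q) j = v) ∨ (¬ (i = q ∧ j = 0) ∧ E1 (i - q) j ∈ S₁)) := by
    intro i j hi hiq hj
    by_cases h : i = q ∧ j = 0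
    · left
      refine ⟨h.1, h.2, ?_⟩
      rw [h.1, h.2, Nat.sub_self]
      exact h10
    · right
      refine ⟨h, h11 _ _ (by omega) ?_ (by omega)⟩
      show j ≤ ℓ (q + (i - q))
      rw [show q + (i - q) = i by omega]
      exact hj
  have m2 : ∀ i j, i < q → j ≤ ℓ i →
      ((i + 1 = q ∧ j = 0 ∧ E2 (q - 1 - i) j = u) ∨
        (¬ (i + 1 = q ∧ j = 0) ∧ E2 (q - 1 - i) j ∈ S₂)) := by
    intro i j hi hj
    by_cases h : i + 1 = q ∧ j = 0
    · left
      refine ⟨h.1, h.2, ?_⟩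
      rw [h.2, show q - 1 - i = 0 by omega]
      exact h20
    · right
      refine ⟨h, h21 _ _ (by omega) ?_ (by omega)⟩
      show j ≤ ℓ (q - 1 - (q - 1 - i))
      rw [show q - 1 - (q - 1 - i) = i by omega]
      exact hj
  -- cross pairs: first on the right side, second on the left side
  have hx : ∀ i j i' j', i < n → ¬ i < q → j ≤ ℓ i → i' < q → j' ≤ ℓ i' →
      E1 (i - q) j ≠ E2 (q - 1 - i') j' ∧
      (G.Adj (E1 (i - q) j) (E2 (q - 1 - i') j') ↔ (i = q ∧ j = 0 ∧ i' + 1 = q ∧ j' = 0)) := by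
    intro i j i' j' hi hiq hj hi' hj'
    have a1 := m1 i j hi hiq hj
    have a2 := m2 i' j' hi' hj'
    have hc := hcross (E1 (i - q) j) (by
      rcases a1 with ⟨-, -, h⟩ | ⟨-, h⟩
      · exact Or.inl h
      · exact Or.inr h) (E2 (q - 1 - i') j') (by
      rcases a2 with ⟨-, -, h⟩ | ⟨-, h⟩
      · exact Or.inl h
      · exact Or.inr h)
    refine ⟨hc.1, fun h => ?_, ?_⟩
    · obtain ⟨e1, e2⟩ := hc.2 h
      rcases a1 with ⟨b1, b2, -⟩ | ⟨-, b3⟩
      · rcases a2 with ⟨c1, c2, -⟩ | ⟨-, c3⟩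
        · exact ⟨b1, b2, c1, c2⟩
        · rw [e2] at c3
          exact absurd c3 huS
      · rw [e1] at b3
        exact absurd b3 hvS
    · rintro ⟨h1, h2, h3, h4⟩
      rcases a1 with ⟨-, -, b3⟩ | ⟨b3, -⟩
      · rcases a2 with ⟨-, -, c3⟩ | ⟨c3, -⟩
        · rw [b3, c3]; exact hvu
        · exact absurd ⟨h3, h4⟩ c3
      · exact absurd ⟨h1, h2⟩ b3
  intro i j i' j' hi hj hi' hj'
  by_cases h1 : i < q
  · by_cases h2 : i' < q
    · simp only [h1, h2, if_true]
      have := h22 (q - 1 - i) j (q - 1 - i') j' (by omega)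
        (by show j ≤ ℓ (q - 1 - (q - 1 - i)); rw [show q - 1 - (q - 1 - i) = i by omega]; exact hj)
        (by omega)
        (by show j' ≤ ℓ (q - 1 - (q - 1 - i')); rw [show q - 1 - (q - 1 - i') = i' by omega]; exact hj')
      refine ⟨fun h => ?_, this.2.trans ?_⟩
      · obtain ⟨e1, e2⟩ := this.1 h
        exact ⟨by omega, e2⟩
      · unfold CatAdj
        omega
    · simp only [h1, h2, if_true, if_false]
      have := hx i' j' i j hi' h2 hj' h1 hj
      refine ⟨fun h => absurd h.symm this.1, (G.adj_comm _ _).trans (this.2.trans ?_)⟩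
      unfold CatAdj
      omega
  · by_cases h2 : i' < q
    · simp only [h1, h2, if_true, if_false]
      have := hx i j i' j' hi h1 hj h2 hj'
      refine ⟨fun h => absurd h this.1, this.2.trans ?_⟩
      unfold CatAdj
      omega
    · simp only [h1, h2, if_false]
      have := h12 (i - q) j (i' - q) j' (by omega)
        (by show j ≤ ℓ (q + (i - q)); rw [show q + (i - q) = i by omega]; exact hj)
        (by omega)
        (by show j' ≤ ℓ (q + (i' - q)); rw [show q + (i' - q) = i' by omega]; exact hj')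
      refine ⟨fun h => ?_, this.2.trans ?_⟩
      · obtain ⟨e1, e2⟩ := this.1 h
        exact ⟨by omega, e2⟩
      · unfold CatAdj
        omega

end Pool.Agent.Helper507.SK
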