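import Mathlib
set_option autoImplicit false
namespace Pool.Agent.Helper507.SK

open Classical in
/-- remove the bottom level -/
noncomputable def up {V : Type} (g : V → ℕ) (X : Finset V) : Finset V :=
  X.filter fun x => ∃ z ∈ X, g z < g x

theorem mem_up {V : Type} (g : V → ℕ) (X : Finset V) (x : V) :
    x ∈ up g X ↔ x ∈ X ∧ ∃ z ∈ X, g z < g x := by
  unfold up
  rw [Finset.mem_filter]

open Classical in
theorem up_eq {V : Type} (g : V → ℕ) (X : Finset V) (x0 : V) (hx0 : x0 ∈ X)
    (hmin : ∀ x ∈ X, g x0 ≤ g x) : up g X = X.filter (fun x => g x0 < g x) := by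
  ext x
  rw [mem_up, Finset.mem_filter]
  constructor
  · rintro ⟨h1, z, hz, h2⟩
    exact ⟨h1, lt_of_le_of_lt (hmin z hz) h2⟩
  · rintro ⟨h1, h2⟩
    exact ⟨h1, x0, hx0, h2⟩

open Classical in
theorem typical_bi {V : Type} (W : Finset V) (Bad : V → Finset V) (n L : ℕ) (hW : W.card ≤ n)
    (hB : ∀ b ∈ W, (Bad b).card ≤ L) : (W.biUnion Bad).card ≤ n * L := by
  refine Finset.card_biUnion_le.trans ?_
  refine (Finset.sum_le_card_nsmul _ _ L hB).trans ?_
  rw [smul_eq_mul]
  exact Nat.mul_le_mul_right _ hW

/-- TARGET. -/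
theorem typical {V : Type} {O : Type} (g : V → ℕ) (Ob : Finset V → O)
    (Wi : Finset V → Finset V) (w L : ℕ)
    (hW1 : ∀ X, Wi X ⊆ X) (hW2 : ∀ X, (Wi X).card ≤ w)
    (hW3 : ∀ X A : Finset V, Wi X ⊆ A → A ⊆ X → Ob A = Ob X)
    (A : V → Finset V) (C B : Finset V)
    (t1 : ∀ y ∈ C, up g (A y) ⊆ B)
    (t2 : ∀ b ∈ B, ∀ s : Finset V, (∀ y ∈ s, y ∈ C ∧ b ∉ A y ∧ g y ≠ g b) → s.card ≤ L)
    (t3 : ∀ y, ∀ b ∈ A y, g y < g b) :
    ∀ s : Finset V, (∀ y ∈ s, y ∈ C ∧ Ob (up g (A y)) ≠ Ob B ∧ Ob (up g (A y)) ≠ Ob (up g B) ∧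
      Ob (up g (A y)) ≠ Ob (up g (up g B))) → s.card ≤ L + (3 * w + 1) * L := by
  classical
  intro s hs
  have hsC : s ⊆ C := fun y hy => (hs y hy).1
  by_cases hCL : C.card ≤ L
  · exact ((Finset.card_le_card hsC).trans hCL).trans (Nat.le_add_right _ _)
  push Not at hCL
  -- the level mu
  have hex : ∃ l, (C.filter (fun y => l < g y)).card ≤ L := by
    refine ⟨C.sup g, ?_⟩
    have : C.filter (fun y => C.sup g < g y) = ∅ := by
      rw [Finset.filter_eq_empty_iff]
      intro y hy h
      exact absurd (Finset.le_sup (f := g) hy) (not_le.mpr h)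
    rw [this]
    simp
  obtain ⟨mu, hmu1, hmu2⟩ : ∃ mu, (C.filter (fun y => mu < g y)).card ≤ L ∧
      L < (C.filter (fun y => mu ≤ g y)).card := by
    refine ⟨Nat.find hex, Nat.find_spec hex, ?_⟩
    rcases Nat.eq_zero_or_pos (Nat.find hex) with h | h
    · rw [h]
      have : C.filter (fun y => 0 ≤ g y) = C := by
        rw [Finset.filter_eq_self]
        intro y _
        exact Nat.zero_le _
      rw [this]
      exact hCL
    · have h1 := Nat.find_min hex (m := Nat.find hex - 1) (by omega)
      push Not at h1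
      have : C.filter (fun y => Nat.find hex ≤ g y) =
          C.filter (fun y => Nat.find hex - 1 < g y) := by
        apply Finset.filter_congr
        intro y _
        omega
      rw [this]
      exact h1
  -- bad sets
  let Bad : V → Finset V := fun b => C.filter (fun y => b ∉ A y ∧ g y ≠ g b)
  have hBad : ∀ b ∈ B, (Bad b).card ≤ L := by
    intro b hb
    apply t2 b hb
    intro y hy
    have := Finset.mem_filter.1 hy
    exact ⟨this.1, this.2.1, this.2.2⟩
  have hnotBad : ∀ b y, y ∈ C → y ∉ Bad b → g y ≠ g b → b ∈ A y := by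
    intro b y hy h1 h2
    by_contra h3
    exact h1 (Finset.mem_filter.2 ⟨hy, h3, h2⟩)
  have hB1 : ∀ b ∈ B, mu ≤ g b := by
    intro b hb
    by_contra h
    push Not at h
    have h1 := t2 b hb (C.filter (fun y => mu ≤ g y)) (by
      intro y hy
      obtain ⟨hy1, hy2⟩ := Finset.mem_filter.1 hy
      refine ⟨hy1, fun hA => ?_, by omega⟩
      have := t3 y b hA
      omega)
    omega
  have hE0 : ∀ y ∈ C, y ∉ C.filter (fun y => mu < g y) → g y ≤ mu := by
    intro y hy h
    by_contra h2
    push Not at h2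
    exact h (Finset.mem_filter.2 ⟨hy, h2⟩)
  -- it suffices to cover s
  suffices hsuff : ∃ E1 : Finset V, E1.card ≤ (3 * w + 1) * L ∧
      s ⊆ C.filter (fun y => mu < g y) ∪ E1 by
    obtain ⟨E1, hE1, hsub⟩ := hsuff
    exact (Finset.card_le_card hsub).trans ((Finset.card_union_le _ _).trans
      (Nat.add_le_add hmu1 hE1))
  by_cases hBm : (B.filter (fun b => mu < g b)).Nonempty
  · obtain ⟨z0, hz0, hz0min⟩ := Finset.exists_min_image _ g hBm
    obtain ⟨hz0B, hz0mu⟩ := Finset.mem_filter.1 hz0
    obtain ⟨Bm, hBmd⟩ : ∃ Bm, Bm = B.filter (fun b => mu < g b) := ⟨_, rfl⟩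
    obtain ⟨Bt, hBtd⟩ : ∃ Bt, Bt = B.filter (fun b => g z0 < g b) := ⟨_, rfl⟩
    have hBmB : Bm ⊆ B := by rw [hBmd]; exact Finset.filter_subset _ _
    have hBtB : Bt ⊆ B := by rw [hBtd]; exact Finset.filter_subset _ _
    have hsets : (Bm = up g B ∧ Bt = up g (up g B)) ∨ (Bm = B ∧ Bt = up g B) := by
      by_cases hlev : ∃ b ∈ B, g b = mu
      · left
        obtain ⟨b, hb, hbmu⟩ := hlev
        have h1 : up g B = Bm := by
          rw [up_eq g B b hb (fun x hx => by rw [hbmu]; exact hB1 x hx), hBmd, hbmu]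
        refine ⟨h1.symm, ?_⟩
        rw [h1, hBmd, up_eq g _ z0 hz0 hz0min, hBtd, Finset.filter_filter]
        apply Finset.filter_congr
        intro x _
        constructor
        · intro h; exact ⟨by omega, h⟩
        · rintro ⟨_, h⟩; exact h
      · right
        push Not at hlev
        have h1 : Bm = B := by
          rw [hBmd, Finset.filter_eq_self]
          intro b hb
          have h2 := hB1 b hb
          have h3 := hlev b hb
          omega
        refine ⟨h1, ?_⟩
        rw [hBtd, up_eq g B z0 hz0B (fun x hx => by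
          apply hz0min
          rw [← hBmd, h1]
          exact hx)]
    have hObs : ∀ y ∈ s, Ob (up g (A y)) ≠ Ob B ∧ Ob (up g (A y)) ≠ Ob Bm ∧
        Ob (up g (A y)) ≠ Ob Bt := by
      intro y hy
      obtain ⟨_, h1, h2, h3⟩ := hs y hy
      rcases hsets with ⟨e1, e2⟩ | ⟨e1, e2⟩
      · rw [e1, e2]; exact ⟨h1, h2, h3⟩
      · rw [e1, e2]; exact ⟨h1, h1, h2⟩
    refine ⟨((Wi B ∪ Wi Bm) ∪ (Wi Bt ∪ {z0})).biUnion Bad, ?_, ?_⟩
    · apply typical_bi
      · have a1 := Finset.card_union_le (Wi B ∪ Wi Bm) (Wi Bt ∪ {z0})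
        have a2 := Finset.card_union_le (Wi B) (Wi Bm)
        have a3 := Finset.card_union_le (Wi Bt) {z0}
        have a4 := hW2 B
        have a5 := hW2 Bm
        have a6 := hW2 Bt
        have a7 : ({z0} : Finset V).card = 1 := Finset.card_singleton _
        omega
      · intro b hb
        apply hBad
        simp only [Finset.mem_union, Finset.mem_singleton] at hb
        rcases hb with (hb | hb) | (hb | hb)
        · exact hW1 _ hb
        · exact hBmB (hW1 _ hb)
        · exact hBtB (hW1 _ hb)
        · rw [hb]; exact hz0B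
    · intro y hy
      rw [Finset.mem_union]
      by_contra hcon
      push Not at hcon
      obtain ⟨hc0, hc1⟩ := hcon
      have hyC := hsC hy
      have hymu := hE0 y hyC hc0
      have hnb : ∀ b, (b ∈ Wi B ∨ b ∈ Wi Bm ∨ b ∈ Wi Bt ∨ b = z0) → g y ≠ g b → b ∈ A y := by
        intro b hb hne
        apply hnotBad b y hyC _ hne
        intro hbad
        apply hc1
        rw [Finset.mem_biUnion]
        refine ⟨b, ?_, hbad⟩
        simp only [Finset.mem_union, Finset.mem_singleton]
        tauto
      have hz0A : z0 ∈ A y := hnb z0 (by tauto) (by omega)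
      obtain ⟨x1, hx1, hx1min⟩ := Finset.exists_min_image (A y) g ⟨z0, hz0A⟩
      have hx1z := hx1min z0 hz0A
      have hyx1 := t3 y x1 hx1
      have hup := up_eq g (A y) x1 hx1 hx1min
      obtain ⟨o1, o2, o3⟩ := hObs y hy
      rcases Nat.lt_or_ge (g x1) mu with hlt | hge
      · apply o1
        apply hW3 B _ _ (t1 y hyC)
        intro b hb
        have hbmu := hB1 b (hW1 _ hb)
        rw [hup, Finset.mem_filter]
        exact ⟨hnb b (Or.inl hb) (by omega), by omega⟩
      · rcases Nat.lt_or_ge (g x1) (g z0) with hlt2 | hge2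
        · apply o2
          apply hW3 Bm
          · intro b hb
            have hbm := hW1 _ hb
            have hbm2 := hbm
            rw [hBmd] at hbm2
            have hbθ := hz0min b hbm2
            have hbmu := (Finset.mem_filter.1 hbm2).2
            rw [hup, Finset.mem_filter]
            exact ⟨hnb b (Or.inr (Or.inl hb)) (by omega), by omega⟩
          · intro b hb
            have hbB := t1 y hyC hb
            rw [hup, Finset.mem_filter] at hb
            rw [hBmd, Finset.mem_filter]
            exact ⟨hbB, by omega⟩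
        · apply o3
          apply hW3 Bt
          · intro b hb
            have hbt := hW1 _ hb
            rw [hBtd, Finset.mem_filter] at hbt
            rw [hup, Finset.mem_filter]
            exact ⟨hnb b (Or.inr (Or.inr (Or.inl hb))) (by omega), by omega⟩
          · intro b hb
            have hbB := t1 y hyC hb
            rw [hup, Finset.mem_filter] at hb
            rw [hBtd, Finset.mem_filter]
            exact ⟨hbB, by omega⟩
  · have hlev : ∀ b ∈ B, g b = mu := by
      intro b hb
      have h1 := hB1 b hb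
      by_contra h2
      exact hBm ⟨b, Finset.mem_filter.2 ⟨hb, by omega⟩⟩
    have hupB : up g B = ∅ := by
      rw [Finset.eq_empty_iff_forall_notMem]
      intro x hx
      obtain ⟨h1, z, hz, h2⟩ := (mem_up g B x).1 hx
      rw [hlev x h1, hlev z hz] at h2
      exact lt_irrefl _ h2
    refine ⟨(Wi B).biUnion Bad, ?_, ?_⟩
    · refine (typical_bi (Wi B) Bad w L (hW2 B) (fun b hb => hBad b (hW1 _ hb))).trans ?_
      apply Nat.mul_le_mul_right
      omega
    · intro y hy
      rw [Finset.mem_union]
      by_contra hcon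
      push Not at hcon
      obtain ⟨hc0, hc1⟩ := hcon
      have hyC := hsC hy
      obtain ⟨_, o1, o2, o3⟩ := hs y hy
      rcases Finset.eq_empty_or_nonempty (up g (A y)) with he | ⟨b0, hb0⟩
      · apply o2
        rw [he, hupB]
      · have hb0B := t1 y hyC hb0
        obtain ⟨_, z, hz, hzb⟩ := (mem_up g (A y) b0).1 hb0
        rw [hlev b0 hb0B] at hzb
        have hyz := t3 y z hz
        apply o1
        apply hW3 B _ _ (t1 y hyC)
        intro b hb
        have hbB := hW1 _ hb
        have hbmu := hlev b hbB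
        rw [mem_up]
        refine ⟨?_, z, hz, by omega⟩
        apply hnotBad b y hyC _ (by omega)
        intro hbad
        apply hc1
        rw [Finset.mem_biUnion]
        exact ⟨b, hb, hbad⟩

end Pool.Agent.Helper507.SK
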