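import Pool.Agent.Helper507.SK.Canon
import Pool.Agent.Helper507.SK.Ram
import Pool.Agent.Helper507.SK.Typical
import Pool.Agent.Helper507.SC.Col
set_option autoImplicit false
namespace Pool.Agent.Helper507.SK

def Valid {V : Type} (g : V → ℕ) (Γ : V → V → Prop) (K : ℕ) (I : Finset V) : Prop :=
  I.card = K ∧ (∀ x ∈ I, ∀ y ∈ I, x ≠ y → ¬ Γ x y) ∧
    ((∀ x ∈ I, ∀ y ∈ I, g x = g y) ∨ (∀ x ∈ I, ∀ y ∈ I, g x = g y → x = y))

theorem exists_valid (ω K : ℕ) : ∃ N : ℕ, ∀ (V : Type) (g : V → ℕ) (Γ : V → V → Prop),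
    (∀ x y, Γ x y → Γ y x) → ∀ A : Finset V, N ≤ A.card →
    (∀ Q ⊆ A, (∀ x ∈ Q, ∀ y ∈ Q, x ≠ y → Γ x y) → Q.card ≤ ω) → ∃ I ⊆ A, Valid g Γ K I := by
  obtain ⟨N, hN⟩ := ramsey (ω + 1) (K * K + 1)
  refine ⟨N, fun V g Γ hsym A hA hω => ?_⟩
  rcases hN V Γ hsym A hA with ⟨Q, hQ1, hQ2, hQ3⟩ | ⟨Q, hQ1, hQ2, hQ3⟩
  · have := hω Q hQ1 hQ3
    omega
  · obtain ⟨I, hI1, hI2, hI3⟩ := pig K V g Q hQ2.ge
    exact ⟨I, hI1.trans hQ1, hI2, fun x hx y hy hxy => hQ3 x (hI1 hx) y (hI1 hy) hxy, hI3⟩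

section
variable {V : Type} {g : V → ℕ} {Γ : V → V → Prop} {A : V → Finset V} {M K : ℕ}

theorem B1 (hg : ∀ v, ∀ x ∈ A v, g v < g x)
    (h4 : ∀ v, ∀ x ∈ A v, ∀ x' ∈ A x, ∀ s : Finset V,
      (∀ y ∈ s, y ∈ A v ∧ ¬ Γ y x ∧ x' ∉ A y ∧ g y ≠ g x') → s.card ≤ M)
    {v : V} {I : Finset V} (hI : I ⊆ A v) (hV : Valid g Γ K I) {x : V} (hx : x ∈ A v)
    {F : Finset V} (hF : F ⊆ I) (hFx : ∀ q ∈ F, ¬ Γ q x) (hFc : M + 1 < F.card)
    {b : V} (hb : b ∈ up g (A x)) : ∃ q ∈ I, b ∈ A q := by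
  classical
  by_contra hcon
  push Not at hcon
  unfold up at hb
  rw [Finset.mem_filter] at hb
  obtain ⟨hbx, z, hz, hzb⟩ := hb
  have h1 := h4 v x hx b hbx (F.filter fun q => g q ≠ g b) (by
    intro q hq
    rw [Finset.mem_filter] at hq
    exact ⟨hI (hF hq.1), hFx q hq.1, hcon q (hF hq.1), hq.2⟩)
  have h2 := Finset.card_filter_add_card_filter_not (s := F) (fun q => g q = g b)
  have h3 : 1 < (F.filter fun q => g q = g b).card := by
    have : (F.filter fun q => ¬ g q = g b).card ≤ M := h1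
    omega
  obtain ⟨q1, hq1, q2, hq2, hne⟩ := Finset.one_lt_card.1 h3
  rw [Finset.mem_filter] at hq1 hq2
  rcases hV.2.2 with hs | hr
  · have h5 := h4 v x hx z hz (F.filter fun q => z ∉ A q ∧ g q ≠ g z) (by
      intro q hq
      rw [Finset.mem_filter] at hq
      exact ⟨hI (hF hq.1), hFx q hq.1, hq.2.1, hq.2.2⟩)
    have h6 : ∃ q ∈ F, ¬ (z ∉ A q ∧ g q ≠ g z) := by
      by_contra hc
      push Not at hc
      have : F.filter (fun q => z ∉ A q ∧ g q ≠ g z) = F := by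
        rw [Finset.filter_eq_self]
        exact hc
      rw [this] at h5
      omega
    obtain ⟨q, hq, hqz⟩ := h6
    have h7 : g q = g b := (hs q (hF hq) q1 (hF hq1.1)).trans hq1.2
    by_cases hzq : z ∈ A q
    · have := hg q z hzq
      omega
    · have : g q = g z := by
        by_contra hc
        exact hqz ⟨hzq, hc⟩
      omega
  · exact hne (hr q1 (hF hq1.1) q2 (hF hq2.1) (hq1.2.trans hq2.2.symm))

theorem B2 (hirr : ∀ x, ¬ Γ x x) (hsym : ∀ x y, Γ x y → Γ y x) (hg : ∀ v, ∀ x ∈ A v, g v < g x)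
    (h4 : ∀ v, ∀ x ∈ A v, ∀ x' ∈ A x, ∀ s : Finset V,
      (∀ y ∈ s, y ∈ A v ∧ ¬ Γ y x ∧ x' ∉ A y ∧ g y ≠ g x') → s.card ≤ M)
    {v : V} {I : Finset V} (hI : I ⊆ A v) (hV : Valid g Γ K I)
    {q b : V} (hq : q ∈ I) (hb : b ∈ A q) (s : Finset V)
    (hs : ∀ y ∈ s, (y ∈ A v ∧ ∃ F ⊆ I, (∀ q ∈ F, ¬ Γ q y) ∧ M + 1 < F.card) ∧ b ∉ A y ∧ g y ≠ g b) :
    s.card ≤ K * M := by
  classical
  have hbad : (I.filter fun q' => b ∉ A q').card ≤ M + 1 := by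
    have h1 := h4 v q (hI hq) b hb (I.filter fun q' => b ∉ A q' ∧ g q' ≠ g b) (by
      intro q' hq'
      rw [Finset.mem_filter] at hq'
      refine ⟨hI hq'.1, ?_, hq'.2.1, hq'.2.2⟩
      by_cases he : q' = q
      · rw [he]; exact hirr q
      · exact hV.2.1 q' hq'.1 q hq he)
    have h2 : (I.filter fun q' => g q' = g b).card ≤ 1 := by
      rw [Finset.card_le_one]
      intro q1 hq1 q2 hq2
      rw [Finset.mem_filter] at hq1 hq2
      rcases hV.2.2 with hsame | hr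
      · exfalso
        have := hsame q1 hq1.1 q hq
        have := hg q b hb
        omega
      · exact hr q1 hq1.1 q2 hq2.1 (hq1.2.trans hq2.2.symm)
    have h3 : (I.filter fun q' => b ∉ A q') ⊆
        (I.filter fun q' => b ∉ A q' ∧ g q' ≠ g b) ∪ (I.filter fun q' => g q' = g b) := by
      intro q' hq'
      rw [Finset.mem_filter] at hq'
      rw [Finset.mem_union, Finset.mem_filter, Finset.mem_filter]
      by_cases he : g q' = g b
      · exact Or.inr ⟨hq'.1, he⟩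
      · exact Or.inl ⟨hq'.1, hq'.2, he⟩
    have h4' := (Finset.card_le_card h3).trans (Finset.card_union_le _ _)
    omega
  have hsub : s ⊆ I.biUnion fun q' => s.filter fun y => b ∈ A q' ∧ ¬ Γ q' y := by
    intro y hy
    obtain ⟨⟨hyv, F, hFI, hFy, hFc⟩, hby, hgy⟩ := hs y hy
    have hex : ∃ q' ∈ F, b ∈ A q' := by
      by_contra hc
      push Not at hc
      have h5 : F ⊆ I.filter fun q' => b ∉ A q' := fun q' hq' =>
        Finset.mem_filter.2 ⟨hFI hq', hc q' hq'⟩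
      have := Finset.card_le_card h5
      omega
    obtain ⟨q', hq', hbq'⟩ := hex
    exact Finset.mem_biUnion.2 ⟨q', hFI hq', Finset.mem_filter.2 ⟨hy, hbq', hFy q' hq'⟩⟩
  have h6 := (Finset.card_le_card hsub).trans (Finset.card_biUnion_le_card_mul _ _ M fun q' hq' => ?_)
  · rw [hV.1] at h6
    exact h6
  · rcases (s.filter fun y => b ∈ A q' ∧ ¬ Γ q' y).eq_empty_or_nonempty with he | ⟨y0, hy0⟩
    · rw [he]; simp
    · rw [Finset.mem_filter] at hy0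
      refine h4 v q' (hI hq') b hy0.2.1 _ ?_
      intro y hy
      rw [Finset.mem_filter] at hy
      obtain ⟨⟨hyv, -⟩, hby, hgy⟩ := hs y hy.1
      exact ⟨hyv, fun hc => hy.2.2 (hsym _ _ hc), hby, hgy⟩

end

theorem J1 (ω0 M : ℕ) : ∃ N : ℕ, ∀ (V : Type) [Finite V] (g : V → ℕ) (Γ R : V → V → Prop),
    (∀ x, ¬ Γ x x) → (∀ x y, Γ x y → Γ y x) → (∀ v x, R v x → g v < g x) →
    (∀ v, ∀ Q : Finset V, (∀ x ∈ Q, R v x) → (∀ x ∈ Q, ∀ y ∈ Q, x ≠ y → Γ x y) → Q.card ≤ ω0) →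
    (∀ v x x', R v x → R x x' → ∀ s : Finset V,
      (∀ y ∈ s, R v y ∧ ¬ Γ y x ∧ ¬ R y x' ∧ g y ≠ g x') → s.card ≤ M) →
    ∃ c : V → Fin N, ∀ v x z, R v x → R v z → g z < g x → c v ≠ c x := by
  classical
  obtain ⟨ω, hωdef⟩ : ∃ ω, ω = ω0 + 1 := ⟨_, rfl⟩
  obtain ⟨K, hKdef⟩ : ∃ K, K = ω * (M + 1) + M + 2 := ⟨_, rfl⟩
  obtain ⟨N0, hN0⟩ := exists_valid ω K
  obtain ⟨L, hL⟩ : ∃ L, L = K * M := ⟨_, rfl⟩
  obtain ⟨d0, hd0⟩ : ∃ d0, d0 = L + (3 * (ω * K) + 1) * L := ⟨_, rfl⟩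
  obtain ⟨d1, hd1⟩ : ∃ d1, d1 = N0 + ω * d0 + N0 := ⟨_, rfl⟩
  refine ⟨Fintype.card (Bool × Fin (d1 + 1) × Fin (ω * 3 + 1)), ?_⟩
  intro V _ g Γ R hirr hsym hRg hR2 hR4
  have := Fintype.ofFinite V
  obtain ⟨A, hA⟩ : ∃ A : V → Finset V, ∀ v x, x ∈ A v ↔ R v x :=
    ⟨fun v => Finset.univ.filter fun x => R v x, fun v x => by simp⟩
  have hg : ∀ v, ∀ x ∈ A v, g v < g x := fun v x hx => hRg v x ((hA v x).1 hx)
  have h4 : ∀ v, ∀ x ∈ A v, ∀ x' ∈ A x, ∀ s : Finset V,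
      (∀ y ∈ s, y ∈ A v ∧ ¬ Γ y x ∧ x' ∉ A y ∧ g y ≠ g x') → s.card ≤ M := by
    intro v x hx x' hx' s hs
    refine hR4 v x x' ((hA v x).1 hx) ((hA x x').1 hx') s (fun y hy => ?_)
    obtain ⟨a1, a2, a3, a4⟩ := hs y hy
    exact ⟨(hA v y).1 a1, a2, fun h => a3 ((hA y x').2 h), a4⟩
  have hcl : ∀ v, ∀ Q ⊆ A v, (∀ x ∈ Q, ∀ y ∈ Q, x ≠ y → Γ x y) → Q.card ≤ ω := by
    intro v Q hQ hQ2
    have := hR2 v Q (fun x hx => (hA v x).1 (hQ hx)) hQ2
    omega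
  -- ranking of finsets
  obtain ⟨π, hπ⟩ : ∃ π : Finset V → ℕ, Function.Injective π :=
    ⟨fun X => (Fintype.equivFin (Finset V) X : ℕ), fun X Y h =>
      (Fintype.equivFin (Finset V)).injective (Fin.ext h)⟩
  obtain ⟨P, hP⟩ : ∃ P : Finset V → Prop, P = Valid g Γ K := ⟨_, rfl⟩
  have hPK : ∀ I, P I → I.card = K := by
    intro I hI
    rw [hP] at hI
    exact hI.1
  obtain ⟨T, hT⟩ : ∃ T, T = M + 1 := ⟨_, rfl⟩
  obtain ⟨Ob, hOb⟩ : ∃ Ob : Finset V → (Fin ω → Finset V), Ob = fun X (s : Fin ω) => pk π P Γ T X (s : ℕ) := ⟨_, rfl⟩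
  have hObi : ∀ X s, Ob X s = pk π P Γ T X s := by intro X s; rw [hOb]
  obtain ⟨Wi, hWi⟩ : ∃ Wi : Finset V → Finset V, Wi = fun X =>
      (Finset.univ : Finset (Fin ω)).biUnion fun s => pk π P Γ T X (s : ℕ) := ⟨_, rfl⟩
  have hpkc : ∀ X s, (pk π P Γ T X s).card ≤ K := by
    intro X s
    by_cases h : ∃ I ⊆ rem π P Γ T X s, P I
    · exact (hPK _ (pick_spec (π := π) h).2.1).le
    · have : pk π P Γ T X s = ∅ := pick_none h
      rw [this]; simp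
  have hW1 : ∀ X, Wi X ⊆ X := by
    intro X x hx
    rw [hWi] at hx
    obtain ⟨s, -, hs⟩ := Finset.mem_biUnion.1 hx
    exact pk_sub _ _ _ _ _ _ hs
  have hW2 : ∀ X, (Wi X).card ≤ ω * K := by
    intro X
    rw [hWi]
    refine (Finset.card_biUnion_le_card_mul (Finset.univ : Finset (Fin ω))
      (fun s => pk π P Γ T X (s : ℕ)) K fun s _ => hpkc X s).trans ?_
    simp
  have hW3 : ∀ X Y : Finset V, Wi X ⊆ Y → Y ⊆ X → Ob Y = Ob X := by
    intro X Y h1 h2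
    funext s
    rw [hObi, hObi]
    refine ((rem_local hπ (P := P) (Γ := Γ) (T := T) (X := X) (A := Y) ω ?_ h2) s s.2.le).2 s.2
    intro s' hs' x hx
    apply h1
    rw [hWi]
    exact Finset.mem_biUnion.2 ⟨⟨s', hs'⟩, Finset.mem_univ _, hx⟩
  -- facts about a vertex `v`
  obtain ⟨X, hX⟩ : ∃ X : V → Finset V, X = fun v => up g (A v) := ⟨_, rfl⟩
  have hXv : ∀ v, X v = up g (A v) := by intro v; rw [hX]
  have hXA : ∀ v, X v ⊆ A v := by
    intro v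
    rw [hXv]
    unfold up
    exact Finset.filter_subset _ _
  have hCF : ∀ v s x, x ∈ rem π P Γ T (X v) s → x ∉ rem π P Γ T (X v) (s + 1) →
      P (pk π P Γ T (X v) s) ∧ ∃ F ⊆ pk π P Γ T (X v) s, (∀ q ∈ F, ¬ Γ q x) ∧ M + 1 < F.card := by
    intro v s x h1 h2
    rw [mem_rem_succ] at h2
    push Not at h2
    obtain ⟨F, hF1, hF2, hF3⟩ := h2 h1
    refine ⟨?_, F, hF1, hF2, by omega⟩
    by_contra hc
    have hno : ¬ ∃ I ⊆ rem π P Γ T (X v) s, P I := fun h => hc (pick_spec (π := π) h).2.1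
    have : pk π P Γ T (X v) s = ∅ := pick_none hno
    rw [this, Finset.subset_empty] at hF1
    rw [hF1] at hF3
    simp at hF3
  have hB1 : ∀ v s x, x ∈ rem π P Γ T (X v) s → x ∉ rem π P Γ T (X v) (s + 1) →
      X x ⊆ (pk π P Γ T (X v) s).biUnion A := by
    intro v s x h1 h2 b hb
    obtain ⟨a1, F, hF1, hF2, hF3⟩ := hCF v s x h1 h2
    have a1' : Valid g Γ K (pk π P Γ T (X v) s) := (congrFun hP _).mp a1
    rw [hXv] at hb
    obtain ⟨q, hq, hqb⟩ := B1 hg h4 ((pk_sub _ _ _ _ _ _).trans (hXA v)) a1'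
      (hXA v (rem_sub _ _ _ _ _ _ h1)) hF1 hF2 hF3 hb
    exact Finset.mem_biUnion.2 ⟨q, hq, hqb⟩
  have htyp : ∀ v s, ∀ t : Finset V, (∀ y ∈ t, (y ∈ rem π P Γ T (X v) s ∧ y ∉ rem π P Γ T (X v) (s + 1)) ∧
      Ob (X y) ≠ Ob ((pk π P Γ T (X v) s).biUnion A) ∧
      Ob (X y) ≠ Ob (up g ((pk π P Γ T (X v) s).biUnion A)) ∧
      Ob (X y) ≠ Ob (up g (up g ((pk π P Γ T (X v) s).biUnion A)))) → t.card ≤ d0 := by
    intro v s t ht
    rw [hd0]
    refine typical g Ob Wi (ω * K) L hW1 hW2 hW3 A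
      (rem π P Γ T (X v) s \ rem π P Γ T (X v) (s + 1)) ((pk π P Γ T (X v) s).biUnion A) ?_ ?_ hg t ?_
    · intro y hy
      rw [Finset.mem_sdiff] at hy
      rw [← hXv]
      exact hB1 v s y hy.1 hy.2
    · intro b hb r hr
      obtain ⟨q, hq, hqb⟩ := Finset.mem_biUnion.1 hb
      rcases r.eq_empty_or_nonempty with he | ⟨y0, hy0⟩
      · rw [he]; simp
      · obtain ⟨hy0C, -⟩ := hr y0 hy0
        rw [Finset.mem_sdiff] at hy0C
        obtain ⟨a1, -⟩ := hCF v s y0 hy0C.1 hy0C.2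
        have a1' : Valid g Γ K (pk π P Γ T (X v) s) := (congrFun hP _).mp a1
        rw [hL]
        refine B2 hirr hsym hg h4 ((pk_sub _ _ _ _ _ _).trans (hXA v)) a1' hq hqb r ?_
        intro y hy
        obtain ⟨hyC, hy2, hy3⟩ := hr y hy
        rw [Finset.mem_sdiff] at hyC
        obtain ⟨-, F, hF1, hF2, hF3⟩ := hCF v s y hyC.1 hyC.2
        exact ⟨⟨hXA v (rem_sub _ _ _ _ _ _ hyC.1), F, hF1, hF2, hF3⟩, hy2, hy3⟩
    · intro y hy
      obtain ⟨⟨h1, h2⟩, h3, h4', h5⟩ := ht y hy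
      rw [← hXv]
      exact ⟨Finset.mem_sdiff.2 ⟨h1, h2⟩, h3, h4', h5⟩
  have hrem : ∀ v, (rem π P Γ T (X v) ω).card ≤ N0 := by
    intro v
    by_contra hc
    push Not at hc
    refine rem_term (π := π) (P := P) (Γ := Γ) hsym hirr hPK (K := K) (T := T) (ω := ω) ?_
      (A := X v) ?_ ?_
    · rw [hT]; omega
    · intro Q hQ hQ2
      exact hcl v Q (hQ.trans (hXA v)) hQ2
    · obtain ⟨I, hI1, hI2⟩ := hN0 V g Γ hsym _ hc.le (by
        intro Q hQ hQ2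
        exact hcl v Q (hQ.trans ((rem_sub _ _ _ _ _ _).trans (hXA v))) hQ2)
      exact ⟨I, hI1, by rw [hP]; exact hI2⟩
  obtain ⟨Low, hLow⟩ : ∃ Low : V → Prop, ∀ v, Low v ↔ ∀ s, Ob (X v) s = ∅ := ⟨_, fun v => Iff.rfl⟩
  have hLowc : ∀ v, Low v → (X v).card ≤ N0 := by
    intro v hv
    by_contra hc
    push Not at hc
    obtain ⟨I, hI1, hI2⟩ := hN0 V g Γ hsym _ hc.le (by
        intro Q hQ hQ2
        exact hcl v Q (hQ.trans (hXA v)) hQ2)
    have h0 := (hLow v).1 hv ⟨0, by omega⟩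
    rw [hObi] at h0
    have h1 : P (pk π P Γ T (X v) 0) :=
      (pick_spec (π := π) (A := rem π P Γ T (X v) 0) ⟨I, by rw [rem]; exact hI1, by rw [hP]; exact hI2⟩).2.1
    have h2 := hPK _ h1
    have h3 : pk π P Γ T (X v) 0 = ∅ := h0
    rw [h3] at h2
    simp at h2
    omega
  obtain ⟨E, hE⟩ : ∃ E : V → V → Prop, ∀ v x, E v x ↔ x ∈ X v ∧ (x ∈ rem π P Γ T (X v) ω ∨ Low v ∨
      ∃ s : Fin ω, (x ∈ rem π P Γ T (X v) s ∧ x ∉ rem π P Γ T (X v) (s + 1)) ∧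
      Ob (X x) ≠ Ob ((pk π P Γ T (X v) s).biUnion A) ∧
      Ob (X x) ≠ Ob (up g ((pk π P Γ T (X v) s).biUnion A)) ∧
      Ob (X x) ≠ Ob (up g (up g ((pk π P Γ T (X v) s).biUnion A)))) := ⟨_, fun v x => Iff.rfl⟩
  obtain ⟨e1, he1⟩ := SC.degen_col g E d1 (by
    intro v t ht
    by_cases hv : Low v
    · have h1 : t ⊆ X v := fun x hx => ((hE v x).1 (ht x hx).1).1
      have := (Finset.card_le_card h1).trans (hLowc v hv)
      omega
    · have h1 : t ⊆ rem π P Γ T (X v) ω ∪ (Finset.univ : Finset (Fin ω)).biUnion fun s =>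
          t.filter fun x => (x ∈ rem π P Γ T (X v) s ∧ x ∉ rem π P Γ T (X v) (s + 1)) ∧
      Ob (X x) ≠ Ob ((pk π P Γ T (X v) s).biUnion A) ∧
      Ob (X x) ≠ Ob (up g ((pk π P Γ T (X v) s).biUnion A)) ∧
      Ob (X x) ≠ Ob (up g (up g ((pk π P Γ T (X v) s).biUnion A))) := by
        intro x hx
        obtain ⟨-, h2⟩ := (hE v x).1 (ht x hx).1
        rw [Finset.mem_union]
        rcases h2 with h2 | h2 | ⟨s, h2⟩
        · exact Or.inl h2
        · exact absurd h2 hv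
        · exact Or.inr (Finset.mem_biUnion.2 ⟨s, Finset.mem_univ _, Finset.mem_filter.2 ⟨hx, h2⟩⟩)
      have h2 := (Finset.card_le_card h1).trans (Finset.card_union_le _ _)
      have h3 : ((Finset.univ : Finset (Fin ω)).biUnion fun s =>
          t.filter fun x => (x ∈ rem π P Γ T (X v) s ∧ x ∉ rem π P Γ T (X v) (s + 1)) ∧
      Ob (X x) ≠ Ob ((pk π P Γ T (X v) s).biUnion A) ∧
      Ob (X x) ≠ Ob (up g ((pk π P Γ T (X v) s).biUnion A)) ∧
      Ob (X x) ≠ Ob (up g (up g ((pk π P Γ T (X v) s).biUnion A)))).card ≤ ω * d0 := by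
        refine (Finset.card_biUnion_le_card_mul _ _ d0 fun s _ => ?_).trans (by simp)
        refine htyp v s _ ?_
        intro y hy
        exact (Finset.mem_filter.1 hy).2
      have h4' := hrem v
      omega)
  obtain ⟨rk, hrk⟩ : ∃ rk : (Fin ω → Finset V) → ℕ, ∀ o, rk o = sInf (g '' {b | ∃ s, b ∈ o s}) :=
    ⟨_, fun o => rfl⟩
  obtain ⟨e2, he2⟩ := SC.degen_col rk (fun o o' : Fin ω → Finset V => ∃ s : Fin ω,
      o' = Ob ((o s).biUnion A) ∨ o' = Ob (up g ((o s).biUnion A)) ∨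
      o' = Ob (up g (up g ((o s).biUnion A)))) (ω * 3) (by
    intro o t ht
    have h1 : t ⊆ (Finset.univ : Finset (Fin ω)).biUnion fun s =>
        {Ob ((o s).biUnion A), Ob (up g ((o s).biUnion A)), Ob (up g (up g ((o s).biUnion A)))} := by
      intro o' ho'
      obtain ⟨⟨s, hs⟩, -⟩ := ht o' ho'
      refine Finset.mem_biUnion.2 ⟨s, Finset.mem_univ _, ?_⟩
      simp only [Finset.mem_insert, Finset.mem_singleton]
      exact hs
    refine (Finset.card_le_card h1).trans ?_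
    refine (Finset.card_biUnion_le_card_mul _ _ 3 fun s _ => Finset.card_le_three).trans (by simp))
  refine ⟨fun v => Fintype.equivFin _ (decide (Low v), e1 v, e2 (Ob (X v))), ?_⟩
  intro v x z hvx hvz hzx heq
  have h0 := (Fintype.equivFin _).injective heq
  simp only [Prod.mk.injEq, decide_eq_decide] at h0
  obtain ⟨c0, c1, c2⟩ := h0
  have hxX : x ∈ X v := by
    rw [hXv]
    unfold up
    exact Finset.mem_filter.2 ⟨(hA v x).2 hvx, z, (hA v z).2 hvz, hzx⟩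
  have hnE : ¬ E v x := fun h => he1 v x h (hRg v x hvx) c1
  rw [hE] at hnE
  push Not at hnE
  obtain ⟨n1, n2, n3⟩ := hnE hxX
  have hxLow : ¬ Low x := fun h => n2 (c0.2 h)
  -- find the step
  have hstep : ∃ s : Fin ω, x ∈ rem π P Γ T (X v) s ∧ x ∉ rem π P Γ T (X v) (s + 1) := by
    by_contra hc
    push Not at hc
    have : ∀ n, n ≤ ω → x ∈ rem π P Γ T (X v) n := by
      intro n
      induction n with
      | zero => intro _; rw [rem]; exact hxX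
      | succ n ih => intro hn; exact hc ⟨n, by omega⟩ (ih (by omega))
    exact n1 (this ω le_rfl)
  obtain ⟨s, hs1, hs2⟩ := hstep
  have hOx : Ob (X x) = Ob ((pk π P Γ T (X v) s).biUnion A) ∨
      Ob (X x) = Ob (up g ((pk π P Γ T (X v) s).biUnion A)) ∨
      Ob (X x) = Ob (up g (up g ((pk π P Γ T (X v) s).biUnion A))) := by
    by_contra hc
    push Not at hc
    exact hc.2.2 (n3 s ⟨hs1, hs2⟩ hc.1 hc.2.1)
  refine he2 (Ob (X v)) (Ob (X x)) ⟨s, ?_⟩ ?_ c2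
  · rw [hObi]
    exact hOx
  · rw [hLow] at hxLow
    push Not at hxLow
    obtain ⟨t0, ht0⟩ := hxLow
    have hne : (g '' {b | ∃ s, b ∈ Ob (X x) s}).Nonempty := by
      obtain ⟨b, hb⟩ := ht0
      exact ⟨g b, b, ⟨t0, hb⟩, rfl⟩
    obtain ⟨b, ⟨t1, hb⟩, hgb⟩ := Nat.sInf_mem hne
    rw [hObi] at hb
    have hbX : b ∈ X x := pk_sub _ _ _ _ _ _ hb
    obtain ⟨q, hq, hqb⟩ := Finset.mem_biUnion.1 (hB1 v s x hs1 hs2 hbX)
    have h1 : rk (Ob (X v)) ≤ g q := by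
      rw [hrk]
      exact Nat.sInf_le ⟨q, ⟨s, by rw [hObi]; exact hq⟩, rfl⟩
    have h2 := hg q b hqb
    rw [hrk (Ob (X x)), ← hgb]
    omega

end Pool.Agent.Helper507.SK
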